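import Pool.Agent.H62.BU.TanB

/-!
# BU FormB: the pull back of a form to the blow-up

`Om y v w = l_b(y_b)^j Ω(y_b)(v_b, w_b)²` for any `b` with `y_b ≠ 0` (the value does not depend on `b`: `om_eq`).

`om_eq`: let `b`, `b'` be two such indices, `y b' = c • y b`, `c ≠ 0`; `l_(b')(y_(b')) = c² l_b (y_b)` (`symm`: `l_(b')(y_(b')) = c l_(b')(y_b) = c l_b (y_(b'))`);
`v b' = c • v b + μ • y b` (`tan_rel`), so `Ω(y_(b'))(v_(b'), w_(b')) = Ω(c y_b)(c v_b + μ y_b, c w_b + μ' y_b) = Ω (c y_b)(c v_b, c w_b)` (`add_smul` at the point `c y_b`: `μ y_b = (μ/c) (c y_b)`; `c v_b` is tangent at `c y_b`)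
`= c^(-j) Ω(y_b)(v_b, w_b)` (`scale`).  Squares and the factor `c^(2j)` cancel.

`isForm_om`: `add_smul`, `det` (the square gives `(ad-bc)^(2m)`), `scale`: `c^j` from `l_b(c y_b)^j = c^j l_b(y_b)^j` and `c^(-2j)` from the square: total `c^(-j)`; note that `Tan` of `y` passes to `c y` and to linear combinations only through `tan_comp`
(use the same `b` on both sides: `(c • y) b ≠ 0`).
`analytic`: near `p` the component `b` with `φ p b ≠ 0` works: `om_eq` for the tangent vectors `fderiv φ y (1,0)`, `fderiv φ y (0,1)` of `blow` at `φ y` (`tan_fderiv`), then `hΩ.analytic` for `y ↦ φ y b`, whose derivative is `(fderiv φ y w) b`.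
`noZero_om`: `y ∉ total`, so `y b ∉ B` for the `b` with `y b ≠ 0`... (if `y b ∈ B` for one such `b` then for all, `comp_smul` and the cone property of `B`); `q ∈ B`, so `y b` is not a multiple of `q`, some `l b' (y b) ≠ 0`, hence
`l_b (y_b) ≠ 0` (`ne_of_ne`), and `indep_off`, `NoZeroOff` for `Ω`.
-/

set_option autoImplicit false

namespace Pool.Agent.H62.BU

open Filter Topology

variable {V : Type*} [NormedAddCommGroup V] [NormedSpace ℂ V] {ι : Type*} [Fintype ι]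
variable {l : ι → V →L[ℂ] ℂ} {X : Set V} {σ : ℂ × ℂ → V} {τ : V → ℂ × ℂ}

/-- no zeros outside `B` -/
def NoZeroOff (X B : Set V) (Ω : V → V → V → ℂ) : Prop :=
  ∀ x ∈ X, x ∉ B → ∀ v w, Tan X x v → Tan X x w → LinearIndependent ℂ ![x, v, w] → Ω x v w ≠ 0

open Classical in
/-- the pull back -/
noncomputable def om (l : ι → V →L[ℂ] ℂ) (j : ℕ) (Ω : V → V → V → ℂ) (y v w : ι → V) : ℂ :=
  if h : ∃ b, y b ≠ 0 then l h.choose (y h.choose) ^ j * Ω (y h.choose) (v h.choose) (w h.choose) ^ 2 else 0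

theorem tan_fderiv {φ : ℂ × ℂ → V} {p : ℂ × ℂ} (hφ : AnalyticAt ℂ φ p) (h : ∀ᶠ y in 𝓝 p, φ y ∈ X) (w : ℂ × ℂ) :
    Tan X (φ p) (fderiv ℂ φ p w) := by
  have e0 : p + (0 : ℂ) • w = p := by rw [zero_smul, add_zero]
  have hlin : AnalyticAt ℂ (fun z : ℂ => p + z • w) 0 :=
    analyticAt_const.add (analyticAt_id.smul analyticAt_const)
  have ht : Tendsto (fun z : ℂ => p + z • w) (𝓝 0) (𝓝 p) := by
    have h1 : Tendsto (fun z : ℂ => p + z • w) (𝓝 0) (𝓝 (p + (0 : ℂ) • w)) := hlin.continuousAt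
    rwa [e0] at h1
  refine ⟨fun z => φ (p + z • w), ?_, ht.eventually h, by simp only [e0], ?_⟩
  · have h1 : AnalyticAt ℂ φ (p + (0 : ℂ) • w) := by rw [e0]; exact hφ
    exact AnalyticAt.comp (g := φ) (f := fun z : ℂ => p + z • w) h1 hlin
  · have h1 : HasFDerivAt φ (fderiv ℂ φ p) (p + (0 : ℂ) • w) := by
      rw [e0]; exact hφ.differentiableAt.hasFDerivAt
    have h2 : HasDerivAt (fun z : ℂ => p + z • w) w 0 := by
      have h3 := ((hasDerivAt_id (0 : ℂ)).smul_const w).const_add p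
      simpa using h3
    exact (h1.comp_hasDerivAt (0 : ℂ) h2).deriv

private theorem FormB_tan_smul {W : Type*} [NormedAddCommGroup W] [NormedSpace ℂ W] {Y : Set W}
    (hY : ∀ x ∈ Y, ∀ c : ℂ, c ≠ 0 → c • x ∈ Y) {x v : W} (hv : Tan Y x v) {c : ℂ} (hc : c ≠ 0) :
    Tan Y (c • x) (c • v) := by
  obtain ⟨γ, hγ, hmem, h0, hd⟩ := hv
  refine ⟨fun z => c • γ z, analyticAt_const.smul hγ, ?_, by show c • γ 0 = c • x; rw [h0], ?_⟩
  · filter_upwards [hmem] with z hz
    exact hY _ hz c hc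
  · have h1 : HasDerivAt γ v 0 := by
      rw [← hd]; exact hγ.differentiableAt.hasDerivAt
    exact (h1.const_smul c).deriv

private theorem FormB_indep (hX : Surface X) {m j : ℕ} {Ω : V → V → V → ℂ} (hΩ : IsForm X m j Ω) {y v w : ι → V} (hy : y ∈ blow l X)
    (hv : Tan (blow l X) y v) (hw : Tan (blow l X) y w) {b b' : ι} (hb : y b ≠ 0) (hb' : y b' ≠ 0) :
    l b' (y b') ^ j * Ω (y b') (v b') (w b') ^ 2 = l b (y b) ^ j * Ω (y b) (v b) (w b) ^ 2 := by
  obtain ⟨c, hc⟩ := comp_smul y hy hb b'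
  have hc0 : c ≠ 0 := by
    rintro rfl
    rw [zero_smul] at hc
    exact hb' hc
  obtain ⟨μ, hμ⟩ := tan_rel hy hv hb b'
  obtain ⟨ν, hν⟩ := tan_rel hy hw hb b'
  have e1 := hμ c hc
  have e2 := hν c hc
  have hyb : y b ∈ X := comp_mem hX y hy hb
  have hcy : c • y b ∈ X := hX.smul _ hyb c hc0
  have tv := tan_comp hX hy hv hb
  have tw := tan_comp hX hy hw hb
  have tv' := FormB_tan_smul hX.smul tv hc0
  have tw' := FormB_tan_smul hX.smul tw hc0
  have e3 : l b' (y b') = c ^ 2 * l b (y b) := by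
    have h1 : l b' (y b') = c * l b' (y b) := by rw [hc, map_smul, smul_eq_mul]
    have h2 : l b' (y b) = l b (y b') := (symm y hy b b').symm
    have h3 : l b (y b') = c * l b (y b) := by rw [hc, map_smul, smul_eq_mul]
    rw [h1, h2, h3]
    ring
  have e4 : Ω (y b') (v b') (w b') = Ω (c • y b) (c • v b) (c • w b) := by
    have h1 := hΩ.add_smul (c • y b) hcy (c • v b) (c • w b) tv' tw' (μ / c) (ν / c)
    rw [smul_smul, smul_smul, div_mul_cancel₀ _ hc0, div_mul_cancel₀ _ hc0] at h1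
    rw [e1, e2, hc]
    exact h1
  have e5 := hΩ.scale (y b) hyb (v b) (w b) tv tw c hc0
  rw [e3, e4, ← e5, mul_pow]
  ring

theorem om_eq (hX : Surface X) {m j : ℕ} {Ω : V → V → V → ℂ} (hΩ : IsForm X m j Ω) {y v w : ι → V} (hy : y ∈ blow l X)
    (hv : Tan (blow l X) y v) (hw : Tan (blow l X) y w) {b : ι} (hb : y b ≠ 0) :
    om l j Ω y v w = l b (y b) ^ j * Ω (y b) (v b) (w b) ^ 2 := by
  have h : ∃ b, y b ≠ 0 := ⟨b, hb⟩
  rw [om, dif_pos h]
  exact FormB_indep hX hΩ hy hv hw hb h.choose_spec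

private theorem FormB_def {j : ℕ} {Ω : V → V → V → ℂ} {y : ι → V} (hy : y ∈ blow l X) :
    ∃ b, y b ≠ 0 ∧ ∀ v w : ι → V, om l j Ω y v w = l b (y b) ^ j * Ω (y b) (v b) (w b) ^ 2 := by
  have h : ∃ b, y b ≠ 0 := exists_ne y hy
  refine ⟨h.choose, h.choose_spec, fun v w => ?_⟩
  rw [om, dif_pos h]

theorem isForm_om [FiniteDimensional ℂ V] (hX : Surface X) {m j : ℕ} {Ω : V → V → V → ℂ} (hΩ : IsForm X m j Ω) :
    IsForm (blow l X) (2 * m) j (om l j Ω) := by
  have : CompleteSpace V := FiniteDimensional.complete ℂ V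
  refine ⟨?_, ?_, ?_, ?_⟩
  · intro y hy v w hv hw a b'
    obtain ⟨b, hb, hom⟩ := FormB_def (l := l) (j := j) (Ω := Ω) hy
    rw [hom, hom]
    have h1 := hΩ.add_smul (y b) (comp_mem hX y hy hb) (v b) (w b) (tan_comp hX hy hv hb) (tan_comp hX hy hw hb) a b'
    simp only [Pi.add_apply, Pi.smul_apply]
    rw [h1]
  · intro y hy v w hv hw a b' c d
    obtain ⟨b, hb, hom⟩ := FormB_def (l := l) (j := j) (Ω := Ω) hy
    rw [hom, hom]
    have h1 := hΩ.det (y b) (comp_mem hX y hy hb) (v b) (w b) (tan_comp hX hy hv hb) (tan_comp hX hy hw hb) a b' c d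
    simp only [Pi.add_apply, Pi.smul_apply]
    rw [h1, mul_pow, ← pow_mul, mul_comm m 2]
    ring
  · intro y hy v w hv hw c hc
    obtain ⟨b, hb, hom⟩ := FormB_def (l := l) (j := j) (Ω := Ω) hy
    have hcy : c • y ∈ blow l X := blow_smul y hy c hc
    have hcb : (c • y) b ≠ 0 := by
      rw [Pi.smul_apply]
      exact smul_ne_zero hc hb
    rw [hom, om_eq hX hΩ hcy (FormB_tan_smul blow_smul hv hc) (FormB_tan_smul blow_smul hw hc) hcb]
    have h1 := hΩ.scale (y b) (comp_mem hX y hy hb) (v b) (w b) (tan_comp hX hy hv hb) (tan_comp hX hy hw hb) c hc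
    simp only [Pi.smul_apply, map_smul, smul_eq_mul]
    rw [← h1, mul_pow]
    ring
  · intro φ p hφ hmem
    have hp : φ p ∈ blow l X := hmem.self_of_nhds
    obtain ⟨b, hb⟩ := exists_ne (φ p) hp
    have hpr : ∀ y, AnalyticAt ℂ φ y → AnalyticAt ℂ (fun y => φ y b) y := fun y hy =>
      AnalyticAt.comp ((ContinuousLinearMap.proj (R := ℂ) (φ := fun _ : ι => V) b).analyticAt _) hy
    have hψ : AnalyticAt ℂ (fun y => φ y b) p := hpr p hφ
    have hne : ∀ᶠ y in 𝓝 p, φ y b ≠ 0 := by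
      have h1 : Tendsto (fun y => φ y b) (𝓝 p) (𝓝 (φ p b)) := hψ.continuousAt
      exact h1.eventually_ne hb
    have hψX : ∀ᶠ y in 𝓝 p, φ y b ∈ X := by
      filter_upwards [hmem, hne] with y h1 h2
      exact comp_mem hX _ h1 h2
    have hl : AnalyticAt ℂ (fun y => l b (φ y b)) p := AnalyticAt.comp ((l b).analyticAt _) hψ
    have hΩa := hΩ.analytic (fun y => φ y b) p hψ hψX
    refine ((hl.pow j).mul (hΩa.pow 2)).congr ?_
    filter_upwards [eventually_eventually_nhds.mpr hmem, hne, hφ.eventually_analyticAt] with y h1 h2 h3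
    have h4 : ∀ w : ℂ × ℂ, fderiv ℂ (fun y => φ y b) y w = (fderiv ℂ φ y w) b := by
      intro w
      have h5 := h3.differentiableAt.hasFDerivAt
      have h6 : HasFDerivAt (fun y => φ y b)
          ((ContinuousLinearMap.proj (R := ℂ) (φ := fun _ : ι => V) b).comp (fderiv ℂ φ y)) y :=
        ((ContinuousLinearMap.proj (R := ℂ) (φ := fun _ : ι => V) b).hasFDerivAt (x := φ y)).comp y h5
      rw [h6.fderiv]
      rfl
    rw [om_eq hX hΩ h1.self_of_nhds (tan_fderiv h3 h1 (1, 0)) (tan_fderiv h3 h1 (0, 1)) h2]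
    simp only [Pi.mul_apply, Pi.pow_apply, h4]

theorem noZero_om (hX : Surface X) {m j : ℕ} {Ω : V → V → V → ℂ} (hΩ : IsForm X m j Ω) {B : Set V} (hB : ∀ x ∈ B, ∀ c : ℂ, c ≠ 0 → c • x ∈ B)
    {q : V} (hl : ∀ v : V, (∀ b, l b v = 0) → ∃ c : ℂ, v = c • q) (hq : q ∈ B) (hn : NoZeroOff X B Ω) :
    NoZeroOff (blow l X) (total l X B) (om l j Ω) := by
  intro y hy hyt v w hv hw hi
  have h1 : ∃ b, y b ≠ 0 ∧ y b ∉ B := by
    by_contra hcon
    push Not at hcon
    exact hyt ⟨hy, hcon⟩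
  obtain ⟨b, hb, hbB⟩ := h1
  have h2 : ∃ b', l b' (y b) ≠ 0 := by
    by_contra hcon
    push Not at hcon
    obtain ⟨c, hc⟩ := hl _ hcon
    have hc0 : c ≠ 0 := by
      rintro rfl
      rw [zero_smul] at hc
      exact hb hc
    rw [hc] at hbB
    exact hbB (hB q hq c hc0)
  obtain ⟨b', hb'⟩ := h2
  rw [om_eq hX hΩ hy hv hw hb]
  refine mul_ne_zero (pow_ne_zero _ (ne_of_ne y hy hb hb')) (pow_ne_zero _ ?_)
  exact hn (y b) (comp_mem hX y hy hb) hbB (v b) (w b) (tan_comp hX hy hv hb) (tan_comp hX hy hw hb)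
    (indep_off hX hy hv hw hb hb' hi)

end Pool.Agent.H62.BU
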