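import Pool.Agent.H62.BU.Alg

/-!
# BU LiftB: lifting holomorphic curves to the blow-up, equations of the total transform

`lift_curve`: `g z = phi l (f z)` is analytic at `z₀` and not `0` near `z₀` identically (some `l b (f z) ≠ 0` frequently: `hne`), so `g z = (z - z₀)^k • F z` with `F z₀ ≠ 0`, `F` analytic (`AnalyticAt.exists_eventuallyEq_pow_smul_nonzero_iff`);
for `z ≠ z₀` near `z₀` some `l b (f z) ≠ 0` and `F z = (z - z₀)^(-k) • phi l (f z) ∈ dense`; `F z₀` is a limit and `≠ 0` (`blow_closed`).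
`curve_comp`: components (`comp_mem`).
`total_eq`: equations.  `Q i` continuous, homogeneous of degree `D ≥ 1`.
-/

set_option autoImplicit false

namespace Pool.Agent.H62.BU

open Filter Topology

variable {V : Type*} [NormedAddCommGroup V] [NormedSpace ℂ V] {ι : Type*} [Fintype ι]
variable {l : ι → V →L[ℂ] ℂ} {X : Set V} {σ : ℂ × ℂ → V} {τ : V → ℂ × ℂ}

theorem lift_curve {f : ℂ → V} {z₀ : ℂ} (hf : AnalyticAt ℂ f z₀) (hfX : ∀ᶠ z in 𝓝 z₀, f z ∈ X)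
    (hne : ∃ᶠ z in 𝓝[≠] z₀, ∃ b, l b (f z) ≠ 0) :
    ∃ (k : ℕ) (F : ℂ → ι → V), AnalyticAt ℂ F z₀ ∧ (∀ᶠ z in 𝓝 z₀, F z ∈ blow l X) ∧
      ∀ᶠ z in 𝓝 z₀, phi l (f z) = (z - z₀) ^ k • F z := by
  have hg : AnalyticAt ℂ (fun z => phi l (f z)) z₀ := by
    rw [analyticAt_pi_iff]
    intro b
    exact (((l b).analyticAt (f z₀)).comp hf).smul hf
  have hnot : ¬ ∀ᶠ z in 𝓝 z₀, phi l (f z) = 0 := by
    intro h
    refine hne ?_
    filter_upwards [h.filter_mono nhdsWithin_le_nhds] with z hz hb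
    exact phi_ne hb hz
  obtain ⟨k, F, hF, hF0, hFe⟩ := (hg.exists_eventuallyEq_pow_smul_nonzero_iff).2 hnot
  have hFne : ∀ᶠ z in 𝓝 z₀, F z ≠ 0 := hF.continuousAt.eventually_ne hF0
  have hpunc : ∀ᶠ z in 𝓝[≠] z₀, F z ∈ blow l X := by
    filter_upwards [(hFne.and (hFe.and hfX)).filter_mono nhdsWithin_le_nhds, self_mem_nhdsWithin]
      with z hz hzz
    obtain ⟨h1, h2, h3⟩ := hz
    have h4 : (z - z₀) ^ k ≠ 0 := pow_ne_zero _ (sub_ne_zero.2 hzz)
    have h5 : ∃ b, l b (f z) ≠ 0 := by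
      by_contra hcon
      push Not at hcon
      have h6 : phi l (f z) = 0 := by
        funext b
        show l b (f z) • f z = 0
        rw [hcon b, zero_smul]
      rw [h6] at h2
      exact smul_ne_zero h4 h1 h2.symm
    have h7 : F z = ((z - z₀) ^ k)⁻¹ • phi l (f z) := by
      rw [h2, smul_smul, inv_mul_cancel₀ h4, one_smul]
    rw [h7]
    exact dense_sub (dense_smul (phi_mem_dense h3 h5) (inv_ne_zero h4))
  have hz0 : F z₀ ∈ blow l X := by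
    refine blow_closed _ ?_ hF0
    exact mem_closure_of_tendsto (hF.continuousAt.tendsto.mono_left nhdsWithin_le_nhds) hpunc
  refine ⟨k, F, hF, ?_, hFe⟩
  rw [eventually_nhdsWithin_iff] at hpunc
  filter_upwards [hpunc] with z hz
  by_cases h : z = z₀
  · rw [h]; exact hz0
  · exact hz h

theorem curve_comp (hX : Surface X) {F : ℂ → ι → V} {z₀ : ℂ} (hF : AnalyticAt ℂ F z₀) (h : ∀ᶠ z in 𝓝 z₀, F z ∈ blow l X) {b : ι}
    (hb : F z₀ b ≠ 0) : AnalyticAt ℂ (fun z => F z b) z₀ ∧ ∀ᶠ z in 𝓝 z₀, F z b ∈ X := by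
  have h1 : AnalyticAt ℂ (fun z => F z b) z₀ := (analyticAt_pi_iff.1 hF) b
  refine ⟨h1, ?_⟩
  filter_upwards [h, h1.continuousAt.eventually_ne hb] with z hz hzb
  exact comp_mem hX _ hz hzb

theorem total_eq (hX : Surface X) {B : Set V} {κ : Type*} {Q : κ → V → ℂ} {D : ℕ} (hD : D ≠ 0)
    (hQ : ∀ i (c : ℂ) x, Q i (c • x) = c ^ D * Q i x) (hB : ∀ x, x ∈ B ↔ x ∈ X ∧ ∀ i, Q i x = 0) (y : ι → V) :
    y ∈ total l X B ↔ y ∈ blow l X ∧ ∀ i b, Q i (y b) = 0 := by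
  constructor
  · rintro ⟨h1, h2⟩
    refine ⟨h1, fun i b => ?_⟩
    by_cases hb : y b = 0
    · rw [hb]
      have h3 := hQ i 0 (0 : V)
      rwa [smul_zero, zero_pow hD, zero_mul] at h3
    · exact ((hB _).1 (h2 b hb)).2 i
  · rintro ⟨h1, h2⟩
    exact ⟨h1, fun b hb => (hB _).2 ⟨comp_mem hX y h1 hb, fun i => h2 i b⟩⟩

end Pool.Agent.H62.BU
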