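import Pool.Agent.H62.BU.Exc

/-!
# BU Cov: every point of the blow-up off the dense part is on the exceptional curve

`blow_cover`: let `y ∈ blow`, `y b ≠ 0`.  If `y b` is not a multiple of `q` then `l b' (y b) ≠ 0` for some `b'` (`Ker`) and `y ∈ dense` (`mem_dense_of_ne`).  Otherwise `y b = λ_b • q`, `λ_b ≠ 0`, and all
`y b' = λ_(b') • q` (`comp_smul`).  Let `U` be an ultrafilter on `dense` converging to `y` (`mem_closure_iff_ultrafilter`).  For `z ∈ dense` near `y`: `x = λ_b⁻¹ • z b` is in `X` (`comp_mem`) and near `q`, so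
`x = c • σ p`, `p = τ x → 0` (`τ q = 0`), `c ≠ 0`.  `p ≠ 0`, because for `p = 0` all `l_b' x = 0`, hence `l_b' (z b) = 0`, and then `z b = 0` (write `z = c • phi l x₀`: `z b = (c l_b x₀) • x₀`, `l_(b') (z b) = c l_b x₀ l_(b') x₀`).
Let `w = p / ‖p‖`, `U`-limit `w₀`, `‖w₀‖ = 1` (compact sphere).  `l_(b') x / (c ‖p‖) = l_(b')(σ p)/‖p‖ → μ_(b') = l_(b')(Dσ(0) w₀)` (`HasFDerivAt`, `l_(b') (σ 0) = 0`).  On `dense`: `l_b x • z b' = l_(b') x • z b`
(from `prop` with `Λ = l_b`, `symm`).  Divide by `c ‖p‖`, limit: `μ_b • y b' = μ_(b') • y b`.  If `μ_b = 0` then all `μ_(b') = 0` and `Dσ(0) w₀ ∈ ℂ q` (`Ker`), so `w₀ = 0` by `indep`: contradiction.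
So `y b' = (λ_b / μ_b) • μ_(b') • q`.

`surface_blow`: `blow_zero`, `blow_smul`, `blow_closed`; a point of `dense` is `c • phi l x`: `chart_off` at `x`, then `scale`; a point `c • (l_b (Dσ(0) w) • q)_b`: choose a linear isomorphism `e` of `ℂ²` with
`e (1, 0) = w`, `comp_linear`, `chart_exc`, `scale`.
-/

set_option autoImplicit false

namespace Pool.Agent.H62.BU

open Filter Topology

variable {V : Type*} [NormedAddCommGroup V] [NormedSpace ℂ V] {ι : Type*} [Fintype ι]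
variable {l : ι → V →L[ℂ] ℂ} {X : Set V} {σ : ℂ × ℂ → V} {τ : V → ℂ × ℂ}

private theorem Cov_lim {F : Type*} {U : Filter F} {p : F → ℂ × ℂ} (hp : Tendsto p U (𝓝 0)) {w0 : ℂ × ℂ}
    (hw : Tendsto (fun z => ((‖p z‖ : ℝ) : ℂ)⁻¹ • p z) U (𝓝 w0)) {f : ℂ × ℂ → ℂ} {L : (ℂ × ℂ) →L[ℂ] ℂ}
    (hf : HasFDerivAt f L 0) (hf0 : f 0 = 0) :
    Tendsto (fun z => ((‖p z‖ : ℝ) : ℂ)⁻¹ * f (p z)) U (𝓝 (L w0)) := by
  have h1 := hf.isLittleO
  have h2 := h1.comp_tendsto hp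
  have h3 : (fun z => p z - 0) =O[U] fun z => ((‖p z‖ : ℝ) : ℂ) := by
    refine Asymptotics.IsBigO.of_bound 1 (Eventually.of_forall fun z => ?_)
    rw [sub_zero, Complex.norm_real, norm_norm, one_mul]
  have h4 := (h2.trans_isBigO h3).tendsto_div_nhds_zero
  have h5 : Tendsto (fun z => L (((‖p z‖ : ℝ) : ℂ)⁻¹ • p z)) U (𝓝 (L w0)) := (L.continuous.tendsto w0).comp hw
  have h6 := h4.add h5
  rw [zero_add] at h6
  refine h6.congr fun z => ?_
  simp only [Function.comp_apply, hf0, sub_zero, map_smul, smul_eq_mul]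
  rw [div_eq_inv_mul]
  ring

theorem blow_cover [FiniteDimensional ℂ V] (hX : Surface X) {q : V} (hl : Ker l q) (h : IsChart X σ τ) (h0 : σ 0 = q)
    (y : ι → V) (hy : y ∈ blow l X) :
    y ∈ dense l X ∨ ∃ w : ℂ × ℂ, w ≠ 0 ∧ ∃ c : ℂ, c ≠ 0 ∧ y = c • fun b => l b (fderiv ℂ σ 0 w) • q := by
  obtain ⟨b, hb⟩ := exists_ne y hy
  by_cases hall : ∃ b', l b' (y b) ≠ 0
  · obtain ⟨b', hb'⟩ := hall
    exact Or.inl (mem_dense_of_ne hX y hy hb hb')
  right
  push Not at hall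
  obtain ⟨lam, hlam⟩ := (hl (y b)).mp hall
  have hlam0 : lam ≠ 0 := by
    rintro rfl
    rw [zero_smul] at hlam
    exact hb hlam
  have hq : ∀ b', l b' q = 0 := (hl q).mpr ⟨1, (one_smul _ _).symm⟩
  obtain ⟨U, hUd, hUy⟩ := mem_closure_iff_ultrafilter.mp hy.1
  have hzb : Tendsto (fun z : ι → V => z b) U (𝓝 (y b)) := ((continuous_apply b).tendsto y).mono_left hUy
  have hxt : Tendsto (fun z : ι → V => lam⁻¹ • z b) U (𝓝 q) := by
    have h1 := hzb.const_smul lam⁻¹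
    rwa [hlam, smul_smul, inv_mul_cancel₀ hlam0, one_smul] at h1
  have hτ0 : τ q = 0 := by rw [← h0]; exact h.left.self_of_nhds
  have hpt : Tendsto (fun z : ι → V => τ (lam⁻¹ • z b)) U (𝓝 0) := by
    have h1 : Tendsto τ (𝓝 q) (𝓝 (τ q)) := by
      have := h.τ_an.continuousAt
      rw [h0] at this
      exact this
    rw [hτ0] at h1
    exact h1.comp hxt
  have hright := h.right
  rw [h0] at hright
  have ev : ∀ᶠ z in (U : Filter (ι → V)), τ (lam⁻¹ • z b) ≠ 0 ∧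
      ∀ b', l b (σ (τ (lam⁻¹ • z b))) • z b' = l b' (σ (τ (lam⁻¹ • z b))) • z b := by
    filter_upwards [hUd, hzb.eventually_ne hb, hxt.eventually hright] with z hz hzb0 hzr
    have hzX : z b ∈ X := comp_mem hX z (dense_sub hz) hzb0
    obtain ⟨c, hc, hc2⟩ := hzr (hX.smul _ hzX _ (inv_ne_zero hlam0))
    have hzs : z b = (lam * c) • σ (τ (lam⁻¹ • z b)) := by
      rw [mul_smul, ← hc2, smul_smul, mul_inv_cancel₀ hlam0, one_smul]
    constructor
    · intro hp0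
      rw [hp0, h0] at hzs
      have h1 : ∀ b', l b' (z b) = 0 := by
        intro b'
        rw [hzs, map_smul, hq, smul_zero]
      obtain ⟨x0, hx0, ⟨b1, hb1⟩, c1, hc1, rfl⟩ := hz
      have h2 : (c1 • phi l x0) b = (c1 * l b x0) • x0 := by
        simp only [phi, Pi.smul_apply, smul_smul]
      rw [h2] at hzb0 h1
      have h3 : c1 * l b x0 ≠ 0 := by
        intro h4
        rw [h4, zero_smul] at hzb0
        exact hzb0 rfl
      have h4 := h1 b1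
      rw [map_smul, smul_eq_mul] at h4
      rcases mul_eq_zero.mp h4 with h5 | h5
      · exact h3 h5
      · exact hb1 h5
    · intro b'
      have h1 := prop z (dense_sub hz) (l b) b b'
      rw [symm z (dense_sub hz) b b'] at h1
      have h2 : ∀ b', l b' (z b) = (lam * c) * l b' (σ (τ (lam⁻¹ • z b))) := by
        intro b'
        conv_lhs => rw [hzs]
        rw [map_smul, smul_eq_mul]
      rw [h2 b, h2 b'] at h1
      have h3 : (lam * c) • (l b (σ (τ (lam⁻¹ • z b))) • z b') =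
          (lam * c) • (l b' (σ (τ (lam⁻¹ • z b))) • z b) := by
        rw [smul_smul, smul_smul]
        exact h1
      exact smul_right_injective _ (mul_ne_zero hlam0 hc) h3
  -- the limit direction
  have hsph : ∃ w0 ∈ Metric.sphere (0 : ℂ × ℂ) 1, ((U.map fun z : ι → V =>
      ((‖τ (lam⁻¹ • z b)‖ : ℝ) : ℂ)⁻¹ • τ (lam⁻¹ • z b)) : Filter (ℂ × ℂ)) ≤ 𝓝 w0 := by
    refine (isCompact_sphere (0 : ℂ × ℂ) 1).ultrafilter_le_nhds _ ?_
    rw [le_principal_iff]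
    show ∀ᶠ z in (U : Filter (ι → V)), _ ∈ Metric.sphere (0 : ℂ × ℂ) 1
    filter_upwards [ev] with z hz
    rw [mem_sphere_zero_iff_norm, norm_smul, norm_inv, Complex.norm_real, norm_norm,
      inv_mul_cancel₀ (norm_ne_zero_iff.mpr hz.1)]
  obtain ⟨w0, hw0, hw0t⟩ := hsph
  rw [mem_sphere_zero_iff_norm] at hw0
  have hwt : Tendsto (fun z : ι → V => ((‖τ (lam⁻¹ • z b)‖ : ℝ) : ℂ)⁻¹ • τ (lam⁻¹ • z b)) U (𝓝 w0) := hw0t
  have hμ : ∀ b', Tendsto (fun z : ι → V => ((‖τ (lam⁻¹ • z b)‖ : ℝ) : ℂ)⁻¹ * l b' (σ (τ (lam⁻¹ • z b)))) U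
      (𝓝 (l b' (fderiv ℂ σ 0 w0))) := by
    intro b'
    have h1 : HasFDerivAt (fun p => l b' (σ p)) ((l b').comp (fderiv ℂ σ 0)) 0 :=
      (l b').hasFDerivAt.comp 0 h.σ_an.differentiableAt.hasFDerivAt
    exact Cov_lim hpt hwt h1 (by show l b' (σ 0) = 0; rw [h0, hq])
  have hrel : ∀ b', l b (fderiv ℂ σ 0 w0) • y b' = l b' (fderiv ℂ σ 0 w0) • y b := by
    intro b'
    have h1 : Tendsto (fun z : ι → V => (((‖τ (lam⁻¹ • z b)‖ : ℝ) : ℂ)⁻¹ * l b (σ (τ (lam⁻¹ • z b)))) • z b') U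
        (𝓝 (l b (fderiv ℂ σ 0 w0) • y b')) :=
      (hμ b).smul (((continuous_apply b').tendsto y).mono_left hUy)
    have h2 : Tendsto (fun z : ι → V => (((‖τ (lam⁻¹ • z b)‖ : ℝ) : ℂ)⁻¹ * l b' (σ (τ (lam⁻¹ • z b)))) • z b) U
        (𝓝 (l b' (fderiv ℂ σ 0 w0) • y b)) := (hμ b').smul hzb
    refine tendsto_nhds_unique_of_eventuallyEq h1 h2 ?_
    filter_upwards [ev] with z hz
    rw [mul_smul, mul_smul, hz.2 b']
  have hμb : l b (fderiv ℂ σ 0 w0) ≠ 0 := by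
    intro hz
    have h1 : ∀ b', l b' (fderiv ℂ σ 0 w0) = 0 := by
      intro b'
      have h2 := hrel b'
      rw [hz, zero_smul] at h2
      rcases smul_eq_zero.mp h2.symm with h3 | h3
      · exact h3
      · exact absurd h3 hb
    obtain ⟨c, hc⟩ := (hl _).mp h1
    rw [← h0] at hc
    have h2 := h.indep hc
    rw [h2, norm_zero] at hw0
    exact zero_ne_one hw0
  refine ⟨w0, ?_, lam / l b (fderiv ℂ σ 0 w0), div_ne_zero hlam0 hμb, ?_⟩
  · rintro rfl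
    rw [norm_zero] at hw0
    exact zero_ne_one hw0
  · funext b'
    have h1 := hrel b'
    rw [hlam] at h1
    show y b' = (lam / l b (fderiv ℂ σ 0 w0)) • (l b' (fderiv ℂ σ 0 w0) • q)
    have h2 : y b' = (l b (fderiv ℂ σ 0 w0))⁻¹ • (l b (fderiv ℂ σ 0 w0) • y b') := by
      rw [smul_smul, inv_mul_cancel₀ hμb, one_smul]
    rw [h2, h1]
    simp only [smul_smul]
    congr 1
    ring

private theorem Cov_equiv_left {w : ℂ × ℂ} (hw : w.1 ≠ 0) : ∃ e : (ℂ × ℂ) ≃L[ℂ] (ℂ × ℂ), e (1, 0) = w := by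
  -- `(s, t) ↦ (w.1 s, w.2 s + t)`
  let f : (ℂ × ℂ) →ₗ[ℂ] (ℂ × ℂ) :=
    { toFun := fun p => (w.1 * p.1, w.2 * p.1 + p.2)
      map_add' := fun p q => by ext <;> simp <;> ring
      map_smul' := fun c p => by ext <;> simp <;> ring }
  let g : (ℂ × ℂ) →ₗ[ℂ] (ℂ × ℂ) :=
    { toFun := fun p => (w.1⁻¹ * p.1, p.2 - w.2 * (w.1⁻¹ * p.1))
      map_add' := fun p q => by ext <;> simp <;> ring
      map_smul' := fun c p => by ext <;> simp <;> ring }
  let e : (ℂ × ℂ) ≃ₗ[ℂ] (ℂ × ℂ) :=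
    LinearEquiv.ofLinearMap f g
      (by
        ext <;> simp [f, g, hw])
      (by
        ext <;> simp [f, g, hw])
  refine ⟨e.toContinuousLinearEquiv, ?_⟩
  show f (1, 0) = w
  simp [f]

theorem exists_equiv {w : ℂ × ℂ} (hw : w ≠ 0) : ∃ e : (ℂ × ℂ) ≃L[ℂ] (ℂ × ℂ), e (1, 0) = w := by
  by_cases h1 : w.1 = 0
  · have h2 : w.2 ≠ 0 := by
      intro h2
      exact hw (Prod.ext h1 h2)
    obtain ⟨e, he⟩ := Cov_equiv_left (w := (w.2, w.1)) h2
    refine ⟨e.trans (ContinuousLinearEquiv.prodComm ℂ ℂ ℂ), ?_⟩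
    rw [ContinuousLinearEquiv.trans_apply, he]
    rfl
  · exact Cov_equiv_left h1

end Pool.Agent.H62.BU
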