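import Pool.Agent.H62.BU.Off
import Pool.Agent.H62.BU.Cov

/-!
# BU SurfB: the blow-up is a surface (proof: header of `Cov.lean`)

`blow_local`: the local form of a curve.  `f` is a local equation of `B` in the chart `σ` at `q`: at every point of the blow-up there is a chart in which the total transform has the local equation `f ∘ σ⁻¹`-pullback:
* off the exceptional curve: chart `c • phi l (σ p)`, `σ` a chart of `X` at `x`, and (near `0`) the point is in `total` iff `σ p ∈ B`;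
* over `q`: chart `c • σ1`, `σ1 (u, v) ∈ total ↔ σ (e (u, u v)) ∈ B`, for a linear isomorphism `e`.
-/

set_option autoImplicit false

namespace Pool.Agent.H62.BU

open Filter Topology

variable {V : Type*} [NormedAddCommGroup V] [NormedSpace ℂ V] {ι : Type*} [Fintype ι]
variable {l : ι → V →L[ℂ] ℂ} {X : Set V} {σ : ℂ × ℂ → V} {τ : V → ℂ × ℂ}

private theorem SurfB_smul_mem {B : Set V} (hB : ∀ x ∈ B, ∀ c : ℂ, c ≠ 0 → c • x ∈ B) {c : ℂ} (hc : c ≠ 0) (x : V) :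
    c • x ∈ B ↔ x ∈ B := by
  refine ⟨fun h => ?_, fun h => hB x h c hc⟩
  have h1 := hB _ h c⁻¹ (inv_ne_zero hc)
  rwa [smul_smul, inv_mul_cancel₀ hc, one_smul] at h1

private theorem SurfB_fderiv (h : IsChart X σ τ) (e : (ℂ × ℂ) ≃L[ℂ] (ℂ × ℂ)) (w : ℂ × ℂ) :
    fderiv ℂ (fun p => σ (e p)) 0 w = fderiv ℂ σ 0 (e w) := by
  have h1 : DifferentiableAt ℂ σ (e 0) := by
    rw [map_zero]
    exact h.σ_an.differentiableAt
  have h2 : HasFDerivAt (fun p => σ (e p)) ((fderiv ℂ σ (e 0)).comp (e : (ℂ × ℂ) →L[ℂ] (ℂ × ℂ))) 0 :=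
    h1.hasFDerivAt.comp 0 e.hasFDerivAt
  rw [h2.fderiv]
  simp [map_zero]

/-- chart of the blow-up at a point over `q` -/
private theorem SurfB_exc [FiniteDimensional ℂ V] (hX : Surface X) {q : V} (hl : Ker l q) (h : IsChart X σ τ) (h0 : σ 0 = q)
    {w : ℂ × ℂ} (hw : w ≠ 0) {c : ℂ} (hc : c ≠ 0) :
    ∃ (e : (ℂ × ℂ) ≃L[ℂ] (ℂ × ℂ)) (σ1 : ℂ × ℂ → ι → V) (τ1 : (ι → V) → ℂ × ℂ), IsChart (blow l X) σ1 τ1 ∧
      (σ1 0 = c • fun b => l b (fderiv ℂ σ 0 w) • q) ∧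
      ∀ᶠ p in 𝓝 (0 : ℂ × ℂ), c • phi l (σ (e (p.1, p.1 * p.2))) = p.1 • σ1 p := by
  obtain ⟨e, he⟩ := exists_equiv hw
  obtain ⟨σ1, τ1, h1, h2, h3⟩ := chart_exc hX hl (h.comp_linear e) (by simp only [map_zero]; exact h0)
  refine ⟨e, _, _, h1.scale blow_smul hc, ?_, ?_⟩
  · rw [h3]
    simp only [SurfB_fderiv h e, he]
  · filter_upwards [h2] with p hp
    rw [hp, smul_comm]

theorem surface_blow [FiniteDimensional ℂ V] (hX : Surface X) {q : V} (hl : Ker l q) (hq : q ∈ X) : Surface (blow l X) := by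
  refine ⟨blow_zero, blow_smul, blow_closed, fun y hy => ?_⟩
  obtain ⟨σ, τ, h, h0⟩ := hX.chart q hq
  rcases blow_cover hX hl h h0 y hy with hd | ⟨w, hw, c, hc, rfl⟩
  · obtain ⟨x, hx, ⟨b, hb⟩, c, hc, rfl⟩ := hd
    obtain ⟨σ', τ', h', h0'⟩ := hX.chart x hx
    have hb' : l b (σ' 0) ≠ 0 := by rw [h0']; exact hb
    refine ⟨_, _, (chart_off hX h' hb').scale blow_smul hc, ?_⟩
    simp only [h0']
  · obtain ⟨e, σ1, τ1, h1, h2, -⟩ := SurfB_exc hX hl h h0 hw hc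
    exact ⟨σ1, τ1, h1, h2⟩

theorem mem_total_iff {B : Set V} (hX : Surface X) (hB : ∀ x ∈ B, ∀ c : ℂ, c ≠ 0 → c • x ∈ B) (y : ι → V) (hy : y ∈ blow l X) {b : ι} (hb : y b ≠ 0) :
    y ∈ total l X B ↔ y b ∈ B := by
  refine ⟨fun h => h.2 b hb, fun h => ⟨hy, fun b' hb' => ?_⟩⟩
  obtain ⟨c, hc⟩ := comp_smul y hy hb b'
  have hc0 : c ≠ 0 := by
    rintro rfl
    rw [zero_smul] at hc
    exact hb' hc
  rw [hc]
  exact hB _ h c hc0

theorem blow_local [FiniteDimensional ℂ V] (hX : Surface X) {q : V} (hl : Ker l q) (h : IsChart X σ τ) (h0 : σ 0 = q) {B : Set V}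
    (hB : ∀ x ∈ B, ∀ c : ℂ, c ≠ 0 → c • x ∈ B) (y : ι → V) (hy : y ∈ blow l X) :
    (∃ σ' τ', IsChart X σ' τ' ∧ (∃ b, l b (σ' 0) ≠ 0) ∧ ∃ σ1 τ1, IsChart (blow l X) σ1 τ1 ∧ σ1 0 = y ∧
      (∃ c : ℂ, c ≠ 0 ∧ ∀ p, σ1 p = c • phi l (σ' p)) ∧ ∀ᶠ p in 𝓝 (0 : ℂ × ℂ), (σ1 p ∈ total l X B ↔ σ' p ∈ B)) ∨
    ∃ (e : (ℂ × ℂ) ≃L[ℂ] (ℂ × ℂ)) (σ1 : ℂ × ℂ → ι → V) (τ1 : (ι → V) → ℂ × ℂ), IsChart (blow l X) σ1 τ1 ∧ σ1 0 = y ∧
      ∀ᶠ p in 𝓝 (0 : ℂ × ℂ), (σ1 p ∈ total l X B ↔ σ (e (p.1, p.1 * p.2)) ∈ B) := by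
  rcases blow_cover hX hl h h0 y hy with hd | ⟨w, hw, c, hc, rfl⟩
  · left
    obtain ⟨x, hx, ⟨b, hb⟩, c, hc, rfl⟩ := hd
    obtain ⟨σ', τ', h', h0'⟩ := hX.chart x hx
    have hb' : l b (σ' 0) ≠ 0 := by rw [h0']; exact hb
    have h1 := (chart_off hX h' hb').scale blow_smul hc
    refine ⟨σ', τ', h', ⟨b, hb'⟩, _, _, h1, by simp only [h0'], ⟨c, hc, fun p => rfl⟩, ?_⟩
    have hcont : ContinuousAt (fun p => l b (σ' p)) 0 :=
      (l b).continuous.continuousAt.comp h'.σ_an.continuousAt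
    filter_upwards [h1.σ_mem, h'.σ_mem, hcont.eventually_ne hb'] with p hp hp' hpb
    have hne : σ' p ≠ 0 := fun h0 => hX.zero (h0 ▸ hp')
    have hval : (c • phi l (σ' p)) b = (c * l b (σ' p)) • σ' p := by
      simp only [phi, Pi.smul_apply, smul_smul]
    have hk : c * l b (σ' p) ≠ 0 := mul_ne_zero hc hpb
    have hvne : (c • phi l (σ' p)) b ≠ 0 := by
      rw [hval]
      exact smul_ne_zero hk hne
    rw [mem_total_iff hX hB _ hp hvne, hval]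
    exact SurfB_smul_mem hB hk _
  · right
    obtain ⟨e, σ1, τ1, h1, h2, h3⟩ := SurfB_exc hX hl h h0 hw hc
    refine ⟨e, σ1, τ1, h1, h2, ?_⟩
    have hq0 : σ 0 ≠ 0 := h.ne
    obtain ⟨Λ, -, hΛ⟩ := exists_dual_vector ℂ (σ 0) (norm_ne_zero_iff.mpr hq0)
    have hΛ0 : Λ (σ 0) ≠ 0 := by
      rw [hΛ]
      simpa using hq0
    have hinner : AnalyticAt ℂ (fun p : ℂ × ℂ => e (p.1, p.1 * p.2)) 0 := by
      have h4 : AnalyticAt ℂ (fun p : ℂ × ℂ => (p.1, p.1 * p.2)) 0 :=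
        analyticAt_fst.prod (analyticAt_fst.mul analyticAt_snd)
      exact ((e : (ℂ × ℂ) →L[ℂ] (ℂ × ℂ)).analyticAt _).comp h4
    have hz : e ((0 : ℂ × ℂ).1, (0 : ℂ × ℂ).1 * (0 : ℂ × ℂ).2) = 0 := by simp
    have hσe : AnalyticAt ℂ (fun p : ℂ × ℂ => σ (e (p.1, p.1 * p.2))) 0 := by
      refine AnalyticAt.fun_comp (g := σ) ?_ hinner
      rw [hz]
      exact h.σ_an
    have hcomp : ∀ b, AnalyticAt ℂ (fun p => σ1 p b) 0 := fun b =>
      ((ContinuousLinearMap.proj (R := ℂ) (φ := fun _ : ι => V) b).analyticAt _).comp h1.σ_an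
    have hG : ∀ b, AnalyticAt ℂ (fun p : ℂ × ℂ => Λ (σ (e (p.1, p.1 * p.2))) • σ1 p b - Λ (σ1 p b) • σ (e (p.1, p.1 * p.2))) 0 := by
      intro b
      exact (((Λ.analyticAt _).comp hσe).smul (hcomp b)).sub (((Λ.analyticAt _).comp (hcomp b)).smul hσe)
    have hG0 : ∀ b, ∀ᶠ p in 𝓝 (0 : ℂ × ℂ), Λ (σ (e (p.1, p.1 * p.2))) • σ1 p b - Λ (σ1 p b) • σ (e (p.1, p.1 * p.2)) = 0 := by
      intro b
      have h5 : ∀ᶠ p in 𝓝 (0 : ℂ × ℂ), p.1 ≠ 0 →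
          Λ (σ (e (p.1, p.1 * p.2))) • σ1 p b - Λ (σ1 p b) • σ (e (p.1, p.1 * p.2)) = 0 := by
        filter_upwards [h3] with p hp hp1
        have h6 : σ1 p = p.1⁻¹ • (c • phi l (σ (e (p.1, p.1 * p.2)))) := by
          rw [hp, smul_smul, inv_mul_cancel₀ hp1, one_smul]
        have h7 : σ1 p b = (p.1⁻¹ * (c * l b (σ (e (p.1, p.1 * p.2))))) • σ (e (p.1, p.1 * p.2)) := by
          rw [h6]
          simp only [phi, Pi.smul_apply, smul_smul]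
        rw [h7, map_smul, smul_eq_mul, smul_smul, mul_comm, sub_self]
      filter_upwards [(hG b).eventually_analyticAt, h5.eventually_nhds] with p hp1 hp2
      have h8 : ∃ᶠ p' in 𝓝 p, p'.1 ≠ 0 := by
        have h9 : Dense (({0}ᶜ : Set ℂ) ×ˢ (Set.univ : Set ℂ)) := (dense_compl_singleton (0 : ℂ)).prod dense_univ
        have h10 := mem_closure_iff_frequently.mp (h9 p)
        refine h10.mono fun p' hp' => ?_
        exact hp'.1
      have h11 := (h8.and_eventually hp2).mono fun p' hp' => hp'.2 hp'.1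
      exact tendsto_nhds_unique_of_frequently_eq hp1.continuousAt tendsto_const_nhds h11
    have hΛe : ∀ᶠ p in 𝓝 (0 : ℂ × ℂ), Λ (σ (e (p.1, p.1 * p.2))) ≠ 0 := by
      have h12 : ContinuousAt (fun p : ℂ × ℂ => Λ (σ (e (p.1, p.1 * p.2)))) 0 :=
        ((Λ.analyticAt _).comp hσe).continuousAt
      refine h12.eventually_ne ?_
      rw [hz]
      exact hΛ0
    filter_upwards [h1.σ_mem, eventually_all.mpr hG0, hΛe] with p hp hpG hpΛ
    obtain ⟨b, hb⟩ := exists_ne (σ1 p) hp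
    have h13 : σ1 p b = ((Λ (σ (e (p.1, p.1 * p.2))))⁻¹ * Λ (σ1 p b)) • σ (e (p.1, p.1 * p.2)) := by
      rw [mul_smul, ← sub_eq_zero.mp (hpG b), smul_smul, inv_mul_cancel₀ hpΛ, one_smul]
    have hk : (Λ (σ (e (p.1, p.1 * p.2))))⁻¹ * Λ (σ1 p b) ≠ 0 := by
      intro h14
      rw [h14, zero_smul] at h13
      exact hb h13
    rw [mem_total_iff hX hB _ hp hb, h13]
    exact SurfB_smul_mem hB hk _

end Pool.Agent.H62.BU
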