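import Pool.Agent.H62.BU.SurfB
import Pool.Agent.H62.BU.FormB
import Pool.Agent.H62.BU.LiftB
import Pool.Agent.H17BP.Surf

/-!
# BU Main: the blow-up of a surface at a point, in terms of the definitions of `H17BP.Surf`
-/

set_option autoImplicit false

namespace Pool.Agent.H62.BU

open Filter Topology

variable {V : Type} [NormedAddCommGroup V] [NormedSpace ℂ V] {ι : Type} [Fintype ι] {l : ι → V →L[ℂ] ℂ} {X B : Set V} {q : V}

theorem toChart {X : Set V} {σ : ℂ × ℂ → V} {τ : V → ℂ × ℂ} (h : Pool.Agent.H17BP.IsChart X σ τ) : IsChart X σ τ :=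
  ⟨h.σ_an, h.σ_mem, h.ne, h.τ_an, h.left, h.right, h.inv⟩

theorem ofChart {X : Set V} {σ : ℂ × ℂ → V} {τ : V → ℂ × ℂ} (h : IsChart X σ τ) : Pool.Agent.H17BP.IsChart X σ τ :=
  ⟨h.σ_an, h.σ_mem, h.ne, h.τ_an, h.left, h.right, h.inv⟩

theorem toSurface {X : Set V} (h : Pool.Agent.H17BP.Surface X) : Surface X :=
  ⟨h.zero, h.smul, h.closed, fun x hx => by
    obtain ⟨σ, τ, h1, h2⟩ := h.chart x hx
    exact ⟨σ, τ, toChart h1, h2⟩⟩

theorem ofSurface {X : Set V} (h : Surface X) : Pool.Agent.H17BP.Surface X :=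
  ⟨h.zero, h.smul, h.closed, fun x hx => by
    obtain ⟨σ, τ, h1, h2⟩ := h.chart x hx
    exact ⟨σ, τ, ofChart h1, h2⟩⟩

theorem toForm {X : Set V} {m j : ℕ} {Ω : V → V → V → ℂ} (h : Pool.Agent.H17BP.IsForm X m j Ω) : IsForm X m j Ω :=
  ⟨fun x hx v w hv hw => h.add_smul x hx v hv w hw, fun x hx v w hv hw => h.det x hx v hv w hw,
    fun x hx v w hv hw => h.scale x hx v hv w hw, h.analytic⟩

theorem ofForm {X : Set V} {m j : ℕ} {Ω : V → V → V → ℂ} (h : IsForm X m j Ω) : Pool.Agent.H17BP.IsForm X m j Ω :=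
  ⟨fun x hx v hv w hw => h.add_smul x hx v w hv hw, fun x hx v hv w hw => h.det x hx v w hv hw,
    fun x hx v hv w hw => h.scale x hx v w hv hw, h.analytic⟩

/-- linear forms whose common kernel is the line through `q` -/
theorem exists_forms [FiniteDimensional ℂ V] (q : V) : ∃ (r : ℕ) (l : Fin r → V →L[ℂ] ℂ), Ker l q := by
  let W : Submodule ℂ V := Submodule.span ℂ {q}
  let e := Module.finBasis ℂ (V ⧸ W)
  refine ⟨_, fun b => LinearMap.toContinuousLinearMap ((e.coord b).comp W.mkQ), fun v => ?_⟩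
  constructor
  · intro h
    have h1 : W.mkQ v = 0 := by
      rw [← e.forall_coord_eq_zero_iff]
      intro b
      have := h b
      simpa using this
    rw [Submodule.mkQ_apply, Submodule.Quotient.mk_eq_zero, Submodule.mem_span_singleton] at h1
    obtain ⟨c, hc⟩ := h1
    exact ⟨c, hc.symm⟩
  · rintro ⟨c, rfl⟩ b
    have h1 : W.mkQ (c • q) = 0 := by
      rw [Submodule.mkQ_apply, Submodule.Quotient.mk_eq_zero]
      exact W.smul_mem c (Submodule.mem_span_singleton_self q)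
    have h2 : ((e.coord b).comp W.mkQ) (c • q) = 0 := by
      rw [LinearMap.comp_apply, h1, map_zero]
    simpa using h2

/-- (1) the blow-up is a surface -/
theorem surface [FiniteDimensional ℂ V] (hX : Pool.Agent.H17BP.Surface X) (hl : Ker l q) (hq : q ∈ X) :
    Pool.Agent.H17BP.Surface (blow l X) :=
  ofSurface (surface_blow (toSurface hX) hl hq)

/-- (2) the form on the blow-up -/
theorem form [FiniteDimensional ℂ V] (hX : Pool.Agent.H17BP.Surface X) {m j : ℕ} {Ω : V → V → V → ℂ} (hΩ : Pool.Agent.H17BP.IsForm X m j Ω) :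
    Pool.Agent.H17BP.IsForm (blow l X) (2 * m) j (om l j Ω) :=
  ofForm (isForm_om (toSurface hX) (toForm hΩ))

/-- (3) the form on the blow-up has no zeros off the total transform -/
theorem noZeros (hX : Pool.Agent.H17BP.Surface X) {m j : ℕ} {Ω : V → V → V → ℂ} (hΩ : Pool.Agent.H17BP.IsForm X m j Ω)
    (hB : ∀ x ∈ B, ∀ c : ℂ, c ≠ 0 → c • x ∈ B) (hl : Ker l q) (hq : q ∈ B) (hn : Pool.Agent.H17BP.NoZeros X B Ω) :
    Pool.Agent.H17BP.NoZeros (blow l X) (total l X B) (om l j Ω) := by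
  have h1 := noZero_om (toSurface hX) (toForm hΩ) hB (fun v hv => (hl v).mp hv) hq
    (fun x hx hxB v w hv hw => hn x hx hxB v hv w hw)
  exact fun y hy hyB v hv w hw => h1 y hy hyB v w hv hw

/-- (4) local equation of the total transform at a point off the exceptional curve: the chart at the image gives a chart with the same equation -/
theorem local_off (hX : Pool.Agent.H17BP.Surface X) (hB : ∀ x ∈ B, ∀ c : ℂ, c ≠ 0 → c • x ∈ B) {y : ι → V} (hy : y ∈ blow l X)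
    {b b' : ι} (hb : y b ≠ 0) (hb' : l b' (y b) ≠ 0) {σ : ℂ × ℂ → V} {τ : V → ℂ × ℂ} (h : Pool.Agent.H17BP.IsChart X σ τ)
    (h0 : σ 0 = y b) {g : ℂ × ℂ → ℂ} (hg : Pool.Agent.H17BP.LocalEq B σ g) :
    ∃ (σ1 : ℂ × ℂ → ι → V) (τ1 : (ι → V) → ℂ × ℂ), Pool.Agent.H17BP.IsChart (blow l X) σ1 τ1 ∧ σ1 0 = y ∧
      Pool.Agent.H17BP.LocalEq (total l X B) σ1 g := by
  have hX' := toSurface hX
  have h1 := ne_of_ne y hy hb hb'
  have h2 : l b (σ 0) ≠ 0 := by rw [h0]; exact h1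
  have h3 := chart_off (l := l) hX' (toChart h) h2
  have h4 := h3.scale (blow_smul (l := l) (X := X)) (inv_ne_zero h1)
  refine ⟨_, _, ofChart h4, ?_, hg.1, ?_⟩
  · rw [h0]
    exact (eq_phi y hy hb hb').symm
  · have h5 : ∀ᶠ p in 𝓝 (0 : ℂ × ℂ), l b (σ p) ≠ 0 := by
      have : ContinuousAt (fun p => l b (σ p)) 0 := (l b).continuous.continuousAt.comp h.σ_an.continuousAt
      exact this.eventually_ne h2
    filter_upwards [hg.2, h5, h4.σ_mem, h.σ_mem] with p e1 e2 e3 e4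
    have e5 : ((l b (y b))⁻¹ • phi l (σ p)) b = ((l b (y b))⁻¹ * l b (σ p)) • σ p := by
      simp only [Pi.smul_apply, phi, smul_smul]
    have e6 : (l b (y b))⁻¹ * l b (σ p) ≠ 0 := mul_ne_zero (inv_ne_zero h1) e2
    have e7 : σ p ≠ 0 := fun e => hX.zero (e ▸ e4)
    have e8 : ((l b (y b))⁻¹ • phi l (σ p)) b ≠ 0 := by
      rw [e5]
      exact smul_ne_zero e6 e7
    rw [mem_total_iff hX' hB _ e3 e8, e5, ← e1]
    constructor
    · intro e9
      have := hB _ e9 _ (inv_ne_zero e6)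
      rwa [smul_smul, inv_mul_cancel₀ e6, one_smul] at this
    · intro e9
      exact hB _ e9 _ e6

/-- (5) local equation of the total transform at the points of the blow-up -/
theorem local_over [FiniteDimensional ℂ V] (hX : Pool.Agent.H17BP.Surface X) (hB : ∀ x ∈ B, ∀ c : ℂ, c ≠ 0 → c • x ∈ B) (hl : Ker l q)
    {σ : ℂ × ℂ → V} {τ : V → ℂ × ℂ} (h : Pool.Agent.H17BP.IsChart X σ τ) (h0 : σ 0 = q) {g : ℂ × ℂ → ℂ}
    (hg : Pool.Agent.H17BP.LocalEq B σ g) {y : ι → V} (hy : y ∈ blow l X) (hy0 : ∀ b b', y b ≠ 0 → l b' (y b) = 0) :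
    ∃ (σ1 : ℂ × ℂ → ι → V) (τ1 : (ι → V) → ℂ × ℂ) (β : ℂ × ℂ → ℂ × ℂ), Pool.Agent.H17BP.IsChart (blow l X) σ1 τ1 ∧ σ1 0 = y ∧
      Pool.Agent.H17BP.BChart β ∧ Pool.Agent.H17BP.LocalEq (total l X B) σ1 (g ∘ β) := by
  rcases blow_local (toSurface hX) hl (toChart h) h0 hB y hy with ⟨σ', τ', h1, ⟨b, hb⟩, σ1, τ1, h2, h3, ⟨c, hc, h4⟩, -⟩ | ⟨e, σ1, τ1, h2, h3, h4⟩
  · exfalso
    have e1 : y = c • phi l (σ' 0) := by rw [← h3, h4]
    have e2 : y b = (c * l b (σ' 0)) • σ' 0 := by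
      rw [e1]
      simp only [Pi.smul_apply, phi, smul_smul]
    have e3 : c * l b (σ' 0) ≠ 0 := mul_ne_zero hc hb
    have e4 : y b ≠ 0 := by
      rw [e2]
      exact smul_ne_zero e3 h1.ne
    have e5 := hy0 b b e4
    rw [e2, map_smul, smul_eq_mul] at e5
    exact (mul_ne_zero e3 hb) e5
  · have hbl : ∀ p, Pool.Agent.H17BP.bl 0 p = (p.1, p.1 * p.2) := fun p => by
      simp [Pool.Agent.H17BP.bl]
    have hbl_an : AnalyticAt ℂ (fun p : ℂ × ℂ => (p.1, p.1 * p.2)) 0 :=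
      analyticAt_fst.prod (analyticAt_fst.mul analyticAt_snd)
    have hb0 : e ((0 : ℂ × ℂ).1, (0 : ℂ × ℂ).1 * (0 : ℂ × ℂ).2) = 0 := by simp
    have hβ_an : AnalyticAt ℂ (fun p : ℂ × ℂ => e (p.1, p.1 * p.2)) 0 :=
      AnalyticAt.comp ((e : (ℂ × ℂ) →L[ℂ] (ℂ × ℂ)).analyticAt _) hbl_an
    have hβt : Tendsto (fun p : ℂ × ℂ => e (p.1, p.1 * p.2)) (𝓝 0) (𝓝 0) := by
      have := hβ_an.continuousAt.tendsto
      rwa [hb0] at this
    refine ⟨σ1, τ1, fun p => e (p.1, p.1 * p.2), ofChart h2, h3, ?_, ?_, ?_⟩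
    · refine ⟨fun p => e p, fun p => p, ?_, ?_, ?_⟩
      · refine ⟨(e : (ℂ × ℂ) →L[ℂ] (ℂ × ℂ)).analyticAt _, map_zero e, fun p => e.symm p,
          (e.symm : (ℂ × ℂ) →L[ℂ] (ℂ × ℂ)).analyticAt _, map_zero e.symm, ?_, ?_⟩
        · exact Eventually.of_forall fun p => e.symm_apply_apply p
        · exact Eventually.of_forall fun p => e.apply_symm_apply p
      · exact ⟨analyticAt_id, rfl, fun p => p, analyticAt_id, rfl, Eventually.of_forall fun p => rfl,
          Eventually.of_forall fun p => rfl⟩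
      · exact Eventually.of_forall fun p => by rw [hbl]
    · refine AnalyticAt.comp (g := g) ?_ hβ_an
      rw [hb0]
      exact hg.1
    · filter_upwards [h4, hβt.eventually hg.2] with p h5 h6
      rw [h5, h6]
      rfl

/-- (6) the components of a point of the blow-up are in the surface, and proportional -/
theorem components (hX : Pool.Agent.H17BP.Surface X) {y : ι → V} (hy : y ∈ blow l X) {b : ι} (hb : y b ≠ 0) :
    y b ∈ X ∧ ∀ b', ∃ c : ℂ, y b' = c • y b :=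
  ⟨comp_mem (toSurface hX) y hy hb, fun b' => comp_smul y hy hb b'⟩

/-- (7) the projection is injective off the exceptional curve -/
theorem injective_off {y y' : ι → V} (hy : y ∈ blow l X) (hy' : y' ∈ blow l X) {b b' d : ι} (hb : y b ≠ 0) (hd : l d (y b) ≠ 0)
    (hb' : y' b' ≠ 0) {c : ℂ} (h : y' b' = c • y b) : ∃ a : ℂ, a ≠ 0 ∧ y' = a • y := by
  have hc : c ≠ 0 := by
    rintro rfl
    rw [zero_smul] at h
    exact hb' h
  have hd' : l d (y' b') ≠ 0 := by
    rw [h, map_smul, smul_eq_mul]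
    exact mul_ne_zero hc hd
  have h1 := ne_of_ne y hy hb hd
  have h2 := ne_of_ne y' hy' hb' hd'
  have h3 := eq_phi y hy hb hd
  have h4 := eq_phi y' hy' hb' hd'
  have h5 : phi l (y b) = l b (y b) • y := by
    have e1 := congrArg (fun z => l b (y b) • z) h3
    simp only [smul_smul, mul_inv_cancel₀ h1, one_smul] at e1
    exact e1.symm
  refine ⟨(l b' (y' b'))⁻¹ * c ^ 2 * l b (y b), mul_ne_zero (mul_ne_zero (inv_ne_zero h2) (pow_ne_zero _ hc)) h1, ?_⟩
  calc y' = (l b' (y' b'))⁻¹ • phi l (y' b') := h4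
    _ = (l b' (y' b'))⁻¹ • phi l (c • y b) := by rw [← h]
    _ = _ := by rw [phi_smul, h5, smul_smul, smul_smul]

end Pool.Agent.H62.BU
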