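import Mathlib

/-!
# BU Inv: local inverse of an analytic map
-/

set_option autoImplicit false

namespace Pool.Agent.H62.BU

open Filter Topology

/-- the analytic inverse function theorem -/
theorem local_inverse {E : Type*} [NormedAddCommGroup E] [NormedSpace ℂ E] [FiniteDimensional ℂ E] {f : E → E} {x₀ : E}
    (hf : AnalyticAt ℂ f x₀) (hi : ∀ v, fderiv ℂ f x₀ v = 0 → v = 0) :
    ∃ ψ : E → E, AnalyticAt ℂ ψ (f x₀) ∧ (∀ᶠ x in 𝓝 x₀, ψ (f x) = x) ∧ (∀ᶠ y in 𝓝 (f x₀), f (ψ y) = y) ∧ ψ (f x₀) = x₀ := by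
  have : CompleteSpace E := FiniteDimensional.complete ℂ E
  have hinj : Function.Injective (fderiv ℂ f x₀ : E →ₗ[ℂ] E) := by
    rw [injective_iff_map_eq_zero]
    exact hi
  let e : E ≃L[ℂ] E := (LinearEquiv.ofInjectiveEndo (fderiv ℂ f x₀ : E →ₗ[ℂ] E) hinj).toContinuousLinearEquiv
  have he : (e : E →L[ℂ] E) = fderiv ℂ f x₀ := by
    ext v
    rfl
  have hs : HasStrictFDerivAt f (e : E →L[ℂ] E) x₀ := by
    rw [he]
    exact hf.hasStrictFDerivAt
  let P := hs.toOpenPartialHomeomorph f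
  have hP : x₀ ∈ P.source := hs.mem_toOpenPartialHomeomorph_source
  have hcoe : (P : E → E) = f := hs.toOpenPartialHomeomorph_coe
  have h1 : AnalyticAt ℂ P.symm (P x₀) := by
    refine P.analyticAt_symm' hP ?_ (i := e) ?_
    · rw [hcoe]
      exact hf
    · rw [hcoe]
      exact he.symm
  rw [hcoe] at h1
  refine ⟨P.symm, h1, ?_, ?_, ?_⟩
  · filter_upwards [P.open_source.mem_nhds hP] with x hx
    have := P.left_inv hx
    rwa [hcoe] at this
  · have h2 : f x₀ ∈ P.target := by
      have := P.map_source hP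
      rwa [hcoe] at this
    filter_upwards [P.open_target.mem_nhds h2] with y hy
    have := P.right_inv hy
    rwa [hcoe] at this
  · have := P.left_inv hP
    rwa [hcoe] at this

end Pool.Agent.H62.BU
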