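import Pool.Agent.H62.BU.Main
import Pool.Agent.H36.BPL.Defs

/-!
# BU FormK: the pull back of a form on an open part of the surface to the blow-up

`K` is an open part of the surface `X`; the open part of the blow-up is `total l X K`.
-/

set_option autoImplicit false

namespace Pool.Agent.H62.BU

open Filter Topology
open Pool.Agent.H36.BPL (OpenPart PoleLE VanOff)

variable {V : Type} [NormedAddCommGroup V] [NormedSpace ℂ V] {ι : Type} [Fintype ι]
variable {l : ι → V →L[ℂ] ℂ} {X K T : Set V} {q : V} {m j e : ℕ} {Ω : V → V → V → ℂ}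

theorem total_smul (hK : ∀ x ∈ K, ∀ c : ℂ, c ≠ 0 → c • x ∈ K) (y : ι → V) (hy : y ∈ total l X K) (c : ℂ) (hc : c ≠ 0) :
    c • y ∈ total l X K := by
  refine ⟨blow_smul y hy.1 c hc, fun b hb => ?_⟩
  rw [Pi.smul_apply] at hb ⊢
  exact hK _ (hy.2 b fun h0 => hb (by rw [h0, smul_zero])) c hc

theorem tan_total {y v : ι → V} (hv : Tan (total l X K) y v) : Tan (blow l X) y v := by
  obtain ⟨γ, h1, h2, h3, h4⟩ := hv
  exact ⟨γ, h1, h2.mono fun z hz => hz.1, h3, h4⟩

theorem tan_compK {y v : ι → V} (hv : Tan (total l X K) y v) {b : ι} (hb : y b ≠ 0) : Tan K (y b) (v b) := by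
  obtain ⟨γ, hγ, hmem, h0, hd⟩ := hv
  have hpr : AnalyticAt ℂ (fun z : ι → V => z b) (γ 0) :=
    (ContinuousLinearMap.proj (R := ℂ) (φ := fun _ : ι => V) b).analyticAt _
  have han : AnalyticAt ℂ (fun z => γ z b) 0 := hpr.comp hγ
  refine ⟨fun z => γ z b, han, ?_, by show γ 0 b = y b; rw [h0], ?_⟩
  · have h1 : ∀ᶠ z in 𝓝 (0 : ℂ), γ z b ≠ 0 := by
      have h2 : Tendsto (fun z => γ z b) (𝓝 0) (𝓝 (γ 0 b)) := han.continuousAt
      rw [h0] at h2
      exact h2.eventually_ne hb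
    filter_upwards [hmem, h1] with z hz1 hz2
    exact hz1.2 b hz2
  · have h1 : HasDerivAt γ v 0 := by
      rw [← hd]; exact hγ.differentiableAt.hasDerivAt
    exact (hasDerivAt_pi.mp h1 b).deriv

private theorem FormK_tan_smul {W : Type*} [NormedAddCommGroup W] [NormedSpace ℂ W] {Y : Set W}
    (hY : ∀ x ∈ Y, ∀ c : ℂ, c ≠ 0 → c • x ∈ Y) {x v : W} (hv : Tan Y x v) {c : ℂ} (hc : c ≠ 0) :
    Tan Y (c • x) (c • v) := by
  obtain ⟨γ, hγ, hmem, h0, hd⟩ := hv
  refine ⟨fun z => c • γ z, analyticAt_const.smul hγ, ?_, by show c • γ 0 = c • x; rw [h0], ?_⟩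
  · filter_upwards [hmem] with z hz
    exact hY _ hz c hc
  · have h1 : HasDerivAt γ v 0 := by
      rw [← hd]; exact hγ.differentiableAt.hasDerivAt
    exact (h1.const_smul c).deriv

private theorem FormK_indep (hK : ∀ x ∈ K, ∀ c : ℂ, c ≠ 0 → c • x ∈ K) (hΩ : IsForm K m j Ω) {y v w : ι → V}
    (hy : y ∈ total l X K) (hv : Tan (total l X K) y v) (hw : Tan (total l X K) y w) {b b' : ι} (hb : y b ≠ 0) (hb' : y b' ≠ 0) :
    l b' (y b') ^ j * Ω (y b') (v b') (w b') ^ 2 = l b (y b) ^ j * Ω (y b) (v b) (w b) ^ 2 := by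
  obtain ⟨c, hc⟩ := comp_smul y hy.1 hb b'
  have hc0 : c ≠ 0 := by
    rintro rfl
    rw [zero_smul] at hc
    exact hb' hc
  obtain ⟨μ, hμ⟩ := tan_rel hy.1 (tan_total hv) hb b'
  obtain ⟨ν, hν⟩ := tan_rel hy.1 (tan_total hw) hb b'
  have e1 := hμ c hc
  have e2 := hν c hc
  have hyb : y b ∈ K := hy.2 b hb
  have hcy : c • y b ∈ K := hK _ hyb c hc0
  have tv := tan_compK hv hb
  have tw := tan_compK hw hb
  have tv' := FormK_tan_smul hK tv hc0
  have tw' := FormK_tan_smul hK tw hc0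
  have e3 : l b' (y b') = c ^ 2 * l b (y b) := by
    have h1 : l b' (y b') = c * l b' (y b) := by rw [hc, map_smul, smul_eq_mul]
    have h2 : l b' (y b) = l b (y b') := (symm y hy.1 b b').symm
    have h3 : l b (y b') = c * l b (y b) := by rw [hc, map_smul, smul_eq_mul]
    rw [h1, h2, h3]
    ring
  have e4 : Ω (y b') (v b') (w b') = Ω (c • y b) (c • v b) (c • w b) := by
    have h1 := hΩ.add_smul (c • y b) hcy (c • v b) (c • w b) tv' tw' (μ / c) (ν / c)
    rw [smul_smul, smul_smul, div_mul_cancel₀ _ hc0, div_mul_cancel₀ _ hc0] at h1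
    rw [e1, e2, hc]
    exact h1
  have e5 := hΩ.scale (y b) hyb (v b) (w b) tv tw c hc0
  rw [e3, e4, ← e5, mul_pow]
  ring

theorem om_eqK (hK : ∀ x ∈ K, ∀ c : ℂ, c ≠ 0 → c • x ∈ K) (hΩ : IsForm K m j Ω) {y v w : ι → V} (hy : y ∈ total l X K)
    (hv : Tan (total l X K) y v) (hw : Tan (total l X K) y w) {b : ι} (hb : y b ≠ 0) :
    om l j Ω y v w = l b (y b) ^ j * Ω (y b) (v b) (w b) ^ 2 := by
  have h : ∃ b, y b ≠ 0 := ⟨b, hb⟩
  rw [om, dif_pos h]
  exact FormK_indep hK hΩ hy hv hw hb h.choose_spec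

private theorem FormK_def {y : ι → V} (hy : y ∈ blow l X) :
    ∃ b, y b ≠ 0 ∧ ∀ v w : ι → V, om l j Ω y v w = l b (y b) ^ j * Ω (y b) (v b) (w b) ^ 2 := by
  have h : ∃ b, y b ≠ 0 := exists_ne y hy
  refine ⟨h.choose, h.choose_spec, fun v w => ?_⟩
  rw [om, dif_pos h]

private theorem FormK_fderiv {φ : ℂ × ℂ → ι → V} {y : ℂ × ℂ} (h3 : AnalyticAt ℂ φ y) (b : ι) (w : ℂ × ℂ) :
    fderiv ℂ (fun y => φ y b) y w = (fderiv ℂ φ y w) b := by
  have h5 := h3.differentiableAt.hasFDerivAt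
  have h6 : HasFDerivAt (fun y => φ y b)
      ((ContinuousLinearMap.proj (R := ℂ) (φ := fun _ : ι => V) b).comp (fderiv ℂ φ y)) y :=
    ((ContinuousLinearMap.proj (R := ℂ) (φ := fun _ : ι => V) b).hasFDerivAt (x := φ y)).comp y h5
  rw [h6.fderiv]
  rfl

theorem isForm_omK [FiniteDimensional ℂ V] (hK : ∀ x ∈ K, ∀ c : ℂ, c ≠ 0 → c • x ∈ K) (hΩ : IsForm K m j Ω) :
    IsForm (total l X K) (2 * m) j (om l j Ω) := by
  have : CompleteSpace V := FiniteDimensional.complete ℂ V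
  refine ⟨?_, ?_, ?_, ?_⟩
  · intro y hy v w hv hw a b'
    obtain ⟨b, hb, hom⟩ := FormK_def (l := l) (j := j) (Ω := Ω) hy.1
    rw [hom, hom]
    have h1 := hΩ.add_smul (y b) (hy.2 b hb) (v b) (w b) (tan_compK hv hb) (tan_compK hw hb) a b'
    simp only [Pi.add_apply, Pi.smul_apply]
    rw [h1]
  · intro y hy v w hv hw a b' c d
    obtain ⟨b, hb, hom⟩ := FormK_def (l := l) (j := j) (Ω := Ω) hy.1
    rw [hom, hom]
    have h1 := hΩ.det (y b) (hy.2 b hb) (v b) (w b) (tan_compK hv hb) (tan_compK hw hb) a b' c d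
    simp only [Pi.add_apply, Pi.smul_apply]
    rw [h1, mul_pow, ← pow_mul, mul_comm m 2]
    ring
  · intro y hy v w hv hw c hc
    obtain ⟨b, hb, hom⟩ := FormK_def (l := l) (j := j) (Ω := Ω) hy.1
    have hcy : c • y ∈ total l X K := total_smul hK y hy c hc
    have hcb : (c • y) b ≠ 0 := by
      rw [Pi.smul_apply]
      exact smul_ne_zero hc hb
    rw [hom, om_eqK hK hΩ hcy (FormK_tan_smul (total_smul hK) hv hc) (FormK_tan_smul (total_smul hK) hw hc) hcb]
    have h1 := hΩ.scale (y b) (hy.2 b hb) (v b) (w b) (tan_compK hv hb) (tan_compK hw hb) c hc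
    simp only [Pi.smul_apply, map_smul, smul_eq_mul]
    rw [← h1, mul_pow]
    ring
  · intro φ p hφ hmem
    have hp : φ p ∈ total l X K := hmem.self_of_nhds
    obtain ⟨b, hb⟩ := exists_ne (φ p) hp.1
    have hψ : AnalyticAt ℂ (fun y => φ y b) p :=
      AnalyticAt.comp ((ContinuousLinearMap.proj (R := ℂ) (φ := fun _ : ι => V) b).analyticAt _) hφ
    have hne : ∀ᶠ y in 𝓝 p, φ y b ≠ 0 := by
      have h1 : Tendsto (fun y => φ y b) (𝓝 p) (𝓝 (φ p b)) := hψ.continuousAt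
      exact h1.eventually_ne hb
    have hψX : ∀ᶠ y in 𝓝 p, φ y b ∈ K := by
      filter_upwards [hmem, hne] with y h1 h2
      exact h1.2 b h2
    have hl : AnalyticAt ℂ (fun y => l b (φ y b)) p := AnalyticAt.comp ((l b).analyticAt _) hψ
    have hΩa := hΩ.analytic (fun y => φ y b) p hψ hψX
    refine ((hl.pow j).mul (hΩa.pow 2)).congr ?_
    filter_upwards [eventually_eventually_nhds.mpr hmem, hne, hφ.eventually_analyticAt] with y h1 h2 h3
    rw [om_eqK hK hΩ h1.self_of_nhds (tan_fderiv h3 h1 (1, 0)) (tan_fderiv h3 h1 (0, 1)) h2]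
    simp only [Pi.mul_apply, Pi.pow_apply, FormK_fderiv h3]

/-- (1) the form on the open part of the blow-up -/
theorem formK [FiniteDimensional ℂ V] (hK : OpenPart X K) (hΩ : Pool.Agent.H17BP.IsForm K m j Ω) :
    Pool.Agent.H17BP.IsForm (total l X K) (2 * m) j (om l j Ω) :=
  ofForm (isForm_omK hK.smul (toForm hΩ))

/-- (2) the form on the open part of the blow-up has no zeros off the total transform -/
theorem noZerosK (hX : Pool.Agent.H17BP.Surface X) (hK : OpenPart X K) (hΩ : Pool.Agent.H17BP.IsForm K m j Ω)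
    (hT : ∀ x ∈ T, ∀ c : ℂ, c ≠ 0 → c • x ∈ T) (hl : Ker l q) (hq : q ∈ T) (hn : Pool.Agent.H17BP.NoZeros K T Ω) :
    Pool.Agent.H17BP.NoZeros (total l X K) (total l X T) (om l j Ω) := by
  intro y hy hyt v hv w hw hi
  have h1 : ∃ b, y b ≠ 0 ∧ y b ∉ T := by
    by_contra hcon
    push Not at hcon
    exact hyt ⟨hy.1, hcon⟩
  obtain ⟨b, hb, hbT⟩ := h1
  have h2 : ∃ b', l b' (y b) ≠ 0 := by
    by_contra hcon
    push Not at hcon
    obtain ⟨c, hc⟩ := (hl _).mp hcon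
    have hc0 : c ≠ 0 := by
      rintro rfl
      rw [zero_smul] at hc
      exact hb hc
    rw [hc] at hbT
    exact hbT (hT q hq c hc0)
  obtain ⟨b', hb'⟩ := h2
  have hv' : Tan (total l X K) y v := hv
  have hw' : Tan (total l X K) y w := hw
  rw [om_eqK hK.smul (toForm hΩ) hy hv' hw' hb]
  refine mul_ne_zero (pow_ne_zero _ (ne_of_ne y hy.1 hb hb')) (pow_ne_zero _ ?_)
  exact hn (y b) (hy.2 b hb) hbT (v b) (tan_compK hv' hb) (w b) (tan_compK hw' hb)
    (indep_off (toSurface hX) hy.1 (tan_total hv') (tan_total hw') hb hb' hi)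

/-- (3) the order of the poles along the boundary -/
theorem poleLE_om [FiniteDimensional ℂ V] (hX : Pool.Agent.H17BP.Surface X) (hK : OpenPart X K) (hΩ : Pool.Agent.H17BP.IsForm K m j Ω)
    (hP : PoleLE X K e Ω) : PoleLE (blow l X) (total l X K) (2 * e) (om l j Ω) := by
  have : CompleteSpace V := FiniteDimensional.complete ℂ V
  have hX' := toSurface hX
  intro φ p hφ hmem G hG hGg
  have hp : φ p ∈ blow l X := hmem.self_of_nhds
  obtain ⟨b, hb⟩ := exists_ne (φ p) hp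
  have hψ : AnalyticAt ℂ (fun y => φ y b) p :=
    AnalyticAt.comp ((ContinuousLinearMap.proj (R := ℂ) (φ := fun _ : ι => V) b).analyticAt _) hφ
  have hne : ∀ᶠ y in 𝓝 p, φ y b ≠ 0 := by
    have h1 : Tendsto (fun y => φ y b) (𝓝 p) (𝓝 (φ p b)) := hψ.continuousAt
    exact h1.eventually_ne hb
  have hψX : ∀ᶠ y in 𝓝 p, φ y b ∈ X := by
    filter_upwards [hmem, hne] with y h1 h2
    exact comp_mem hX' _ h1 h2
  have hiff : ∀ᶠ y in 𝓝 p, (φ y ∈ total l X K ↔ φ y b ∈ K) := by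
    filter_upwards [hmem, hne] with y h1 h2
    exact mem_total_iff hX' hK.smul _ h1 h2
  have hl : AnalyticAt ℂ (fun y => l b (φ y b)) p := AnalyticAt.comp ((l b).analyticAt _) hψ
  have hvan : ∀ g ∈ G, VanOff K (fun y => φ y b) p g := by
    intro g hg
    obtain ⟨h1, h2⟩ := hGg g hg
    refine ⟨h1, ?_⟩
    filter_upwards [h2, hiff] with y h3 h4 h5
    exact h3 fun h6 => h5 (h4.mp h6)
  obtain ⟨b₁, hb₁, hb₁e⟩ := hP (fun y => φ y b) p hψ hψX (G.take e) (by rw [List.length_take]; omega)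
    (fun g hg => hvan g (List.mem_of_mem_take hg))
  obtain ⟨b₂, hb₂, hb₂e⟩ := hP (fun y => φ y b) p hψ hψX (G.drop e) (by rw [List.length_drop]; omega)
    (fun g hg => hvan g (List.mem_of_mem_drop hg))
  -- the open part of the blow-up is relatively open
  have hopen : ∀ᶠ y in 𝓝 p, φ y ∈ total l X K → ∀ᶠ y' in 𝓝 y, φ y' ∈ total l X K := by
    filter_upwards [eventually_eventually_nhds.mpr hiff, eventually_eventually_nhds.mpr hψX, hψ.eventually_analyticAt]
      with y h1 h2 h3 h4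
    have h5 : φ y b ∈ K := h1.self_of_nhds.mp h4
    have h6 : ∀ᶠ y' in 𝓝 y, φ y' b ∈ X → φ y' b ∈ K := h3.continuousAt.eventually (hK.rel _ h5)
    filter_upwards [h1, h2, h6] with y' h7 h8 h9
    exact h7.mpr (h9 h8)
  refine ⟨fun y => l b (φ y b) ^ j * (b₁ y * b₂ y), (hl.pow j).mul (hb₁.mul hb₂), ?_⟩
  filter_upwards [hb₁e, hb₂e, hopen, hne, hφ.eventually_analyticAt, hiff] with y h1 h2 h3 h4 h5 h6 h7
  have h8 := h3 h7
  have h9 : φ y b ∈ K := h6.mp h7
  rw [h1 h9, h2 h9, om_eqK hK.smul (toForm hΩ) h7 (tan_fderiv h5 h8 (1, 0)) (tan_fderiv h5 h8 (0, 1)) h4]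
  have h10 : (G.map fun g => g y).prod = ((G.take e).map fun g => g y).prod * ((G.drop e).map fun g => g y).prod := by
    rw [← List.prod_append, ← List.map_append, List.take_append_drop]
  rw [h10, FormK_fderiv h5, FormK_fderiv h5]
  ring

end Pool.Agent.H62.BU
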