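import Pool.Agent.H62.BU.Ch

/-!
# BU Off: charts of the blow-up off the exceptional curve

`σ1 p = phi l (σ p)`, `τ1 y = τ (a⁻¹ • y b)`, `a = l b (σ 0) ≠ 0`.  Use `isChart_of_dense`.
* `σ1 p ∈ dense` for `p` near `0` (`l b (σ p) ≠ 0`).
* `left`: `σ1 p b = l b (σ p) • σ p`, `a⁻¹ l b (σ p)` is near `1`: `inv`, `left`.
* `right`: `y = c • phi l x`, near `σ1 0`: `y b = (c l b x) • x` is near `a • σ 0`, so `x' = a⁻¹ • y b` is near `σ 0` and in `X`; `h.right`: `x' = c' • σ (τ x')`, and `x` is a multiple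
  `c'' • σ (τ x')`, so `phi l x = c''^2 • phi l (σ (τ x'))` (`phi_smul`).
* `inv`: from `h.inv` (the map `(y, c) ↦ (a⁻¹ • y b, c)` is continuous).
-/

set_option autoImplicit false

namespace Pool.Agent.H62.BU

open Filter Topology

variable {V : Type*} [NormedAddCommGroup V] [NormedSpace ℂ V] {ι : Type*} [Fintype ι]
variable {l : ι → V →L[ℂ] ℂ} {X : Set V} {σ : ℂ × ℂ → V} {τ : V → ℂ × ℂ}

theorem chart_off (hX : Surface X) (h : IsChart X σ τ) {b : ι} (hb : l b (σ 0) ≠ 0) :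
    IsChart (blow l X) (fun p => phi l (σ p)) (fun y => τ ((l b (σ 0))⁻¹ • y b)) := by
  set a : ℂ := l b (σ 0) with ha
  set g : (ι → V) →L[ℂ] V := a⁻¹ • ContinuousLinearMap.proj b with hg
  have hgy : ∀ y : ι → V, a⁻¹ • y b = g y := fun y => rfl
  have hg0 : g (phi l (σ 0)) = σ 0 := by
    show a⁻¹ • (l b (σ 0) • σ 0) = σ 0
    rw [← ha, smul_smul, inv_mul_cancel₀ hb, one_smul]
  have hσc : ContinuousAt σ 0 := h.σ_an.continuousAt
  have hlc : ContinuousAt (fun p => l b (σ p)) 0 := (l b).continuous.continuousAt.comp hσc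
  have hne : ∀ᶠ p in 𝓝 (0 : ℂ × ℂ), l b (σ p) ≠ 0 := hlc.eventually_ne hb
  have hgc : Tendsto g (𝓝 (phi l (σ 0))) (𝓝 (σ 0)) := by
    have := g.continuous.tendsto (phi l (σ 0))
    rwa [hg0] at this
  refine isChart_of_dense ?_ ?_ ?_ ?_ ?_ ?_
  · refine AnalyticAt.pi fun b' => ?_
    exact (((l b').analyticAt _).comp h.σ_an).smul h.σ_an
  · filter_upwards [h.σ_mem, hne] with p hp1 hp2
    exact dense_sub (phi_mem_dense hp1 ⟨b, hp2⟩)
  · have h1 := h.τ_an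
    rw [← hg0] at h1
    exact h1.comp (g.analyticAt _)
  · have h1 : Tendsto (fun p => (σ p, a⁻¹ * l b (σ p))) (𝓝 (0 : ℂ × ℂ)) (𝓝 (σ 0, (1 : ℂ))) := by
      refine hσc.tendsto.prodMk_nhds ?_
      have h2 := (hlc.tendsto.const_mul a⁻¹)
      rwa [← ha, inv_mul_cancel₀ hb] at h2
    filter_upwards [h1.eventually h.inv, h.left] with p hp1 hp2
    show τ (a⁻¹ • (l b (σ p) • σ p)) = p
    rw [smul_smul]
    exact hp1.trans hp2
  · have h0 : ∀ᶠ y in 𝓝 (phi l (σ 0)), g y ≠ 0 := (hgc.eventually_ne h.ne)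
    filter_upwards [hgc.eventually h.right, h0] with y hy hy0 hyd
    obtain ⟨x, hx, -, c, hc, rfl⟩ := hyd
    have h1 : g (c • phi l x) = (a⁻¹ * (c * l b x)) • x := by
      show a⁻¹ • (c • (l b x • x)) = _
      rw [smul_smul, smul_smul, mul_assoc]
    rw [h1] at hy hy0
    have h2 : a⁻¹ * (c * l b x) ≠ 0 := fun h3 => hy0 (by rw [h3, zero_smul])
    obtain ⟨c', hc', h4⟩ := hy (hX.smul x hx _ h2)
    show ∃ c'' : ℂ, c • phi l x = c'' • phi l (σ (τ (g (c • phi l x))))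
    rw [h1]
    have h5 : x = ((a⁻¹ * (c * l b x))⁻¹ * c') • σ (τ ((a⁻¹ * (c * l b x)) • x)) := by
      rw [mul_smul, ← h4, smul_smul, inv_mul_cancel₀ h2, one_smul]
    refine ⟨c * ((a⁻¹ * (c * l b x))⁻¹ * c') ^ 2, ?_⟩
    rw [mul_smul, ← phi_smul, ← h5]
  · have h1 : Tendsto (fun p : (ι → V) × ℂ => (g p.1, p.2)) (𝓝 (phi l (σ 0), (1 : ℂ))) (𝓝 (σ 0, (1 : ℂ))) := by
      have h2 : Continuous fun p : (ι → V) × ℂ => (g p.1, p.2) :=
        (g.continuous.comp continuous_fst).prodMk continuous_snd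
      have h3 := h2.tendsto (phi l (σ 0), (1 : ℂ))
      simp only [hg0] at h3
      exact h3
    filter_upwards [h1.eventually h.inv] with p hp
    have h2 : g (p.2 • p.1) = p.2 • g p.1 := g.map_smul _ _
    show τ (g (p.2 • p.1)) = τ (g p.1)
    rw [h2]
    exact hp

end Pool.Agent.H62.BU
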