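import Pool.Agent.H62.BU.Surf

/-!
# BU Alg: the blow-up as a set, algebraic identities
-/

set_option autoImplicit false

namespace Pool.Agent.H62.BU

open Filter Topology

variable {V : Type*} [NormedAddCommGroup V] [NormedSpace ℂ V] {ι : Type*} [Fintype ι]

/-- the quadratic map of the blow-up -/
noncomputable def phi (l : ι → V →L[ℂ] ℂ) (x : V) : ι → V := fun b => l b x • x

/-- the part of the blow-up off the exceptional curve -/
def dense (l : ι → V →L[ℂ] ℂ) (X : Set V) : Set (ι → V) :=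
  {y | ∃ x ∈ X, (∃ b, l b x ≠ 0) ∧ ∃ c : ℂ, c ≠ 0 ∧ y = c • phi l x}

/-- the blow-up -/
def blow (l : ι → V →L[ℂ] ℂ) (X : Set V) : Set (ι → V) := {y | y ∈ closure (dense l X) ∧ y ≠ 0}

/-- the total transform -/
def total (l : ι → V →L[ℂ] ℂ) (X B : Set V) : Set (ι → V) := {y | y ∈ blow l X ∧ ∀ b, y b ≠ 0 → y b ∈ B}

variable {l : ι → V →L[ℂ] ℂ} {X : Set V}

theorem phi_ne {x : V} (h : ∃ b, l b x ≠ 0) : phi l x ≠ 0 := by
  obtain ⟨b, hb⟩ := h
  intro h0
  have h1 : l b x • x = 0 := congrFun h0 b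
  rcases smul_eq_zero.mp h1 with h2 | h2
  · exact hb h2
  · rw [h2, map_zero] at hb
    exact hb rfl

theorem phi_smul (c : ℂ) (x : V) : phi l (c • x) = c ^ 2 • phi l x := by
  funext b
  simp only [phi, map_smul, smul_eq_mul, Pi.smul_apply, smul_smul]
  ring_nf

theorem dense_sub : dense l X ⊆ blow l X := by
  rintro y ⟨x, hx, hb, c, hc, rfl⟩
  exact ⟨subset_closure ⟨x, hx, hb, c, hc, rfl⟩, smul_ne_zero hc (phi_ne hb)⟩

theorem phi_mem_dense {x : V} (hx : x ∈ X) (h : ∃ b, l b x ≠ 0) : phi l x ∈ dense l X :=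
  ⟨x, hx, h, 1, one_ne_zero, (one_smul _ _).symm⟩

theorem dense_smul {y : ι → V} (hy : y ∈ dense l X) {c : ℂ} (hc : c ≠ 0) : c • y ∈ dense l X := by
  obtain ⟨x, hx, hb, a, ha, rfl⟩ := hy
  exact ⟨x, hx, hb, c * a, mul_ne_zero hc ha, by rw [smul_smul]⟩

theorem blow_zero : (0 : ι → V) ∉ blow l X := fun h => h.2 rfl

theorem blow_smul (y : ι → V) (hy : y ∈ blow l X) (c : ℂ) (hc : c ≠ 0) : c • y ∈ blow l X := by
  refine ⟨?_, smul_ne_zero hc hy.2⟩
  have h1 : Continuous fun y : ι → V => c • y := continuous_const_smul c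
  have h2 : Set.MapsTo (fun y : ι → V => c • y) (dense l X) (dense l X) := fun y hy => dense_smul hy hc
  exact h2.closure h1 hy.1

theorem blow_closed (y : ι → V) (hy : y ∈ closure (blow l X)) (h0 : y ≠ 0) : y ∈ blow l X := by
  refine ⟨?_, h0⟩
  have h1 : blow l X ⊆ closure (dense l X) := fun z hz => hz.1
  have h2 := closure_mono h1 hy
  rwa [closure_closure] at h2

/-- closed relations extend from the dense part -/
theorem blow_ind {P : (ι → V) → Prop} (hP : IsClosed {y | P y}) (h : ∀ y ∈ dense l X, P y) {y : ι → V}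
    (hy : y ∈ blow l X) : P y :=
  (hP.closure_subset_iff.mpr (fun z hz => h z hz)) hy.1

theorem symm (y : ι → V) (hy : y ∈ blow l X) (b b' : ι) : l b (y b') = l b' (y b) := by
  refine blow_ind (P := fun y => l b (y b') = l b' (y b)) ?_ ?_ hy
  · exact isClosed_eq ((l b).continuous.comp (continuous_apply b')) ((l b').continuous.comp (continuous_apply b))
  · rintro _ ⟨x, hx, hb, c, hc, rfl⟩
    simp only [phi, Pi.smul_apply, map_smul, smul_eq_mul]
    ring

theorem prop (y : ι → V) (hy : y ∈ blow l X) (Λ : V →L[ℂ] ℂ) (b b' : ι) : Λ (y b) • y b' = Λ (y b') • y b := by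
  refine blow_ind (P := fun y => Λ (y b) • y b' = Λ (y b') • y b) ?_ ?_ hy
  · exact isClosed_eq ((Λ.continuous.comp (continuous_apply b)).smul (continuous_apply b'))
      ((Λ.continuous.comp (continuous_apply b')).smul (continuous_apply b))
  · rintro _ ⟨x, hx, hb, c, hc, rfl⟩
    simp only [phi, Pi.smul_apply, map_smul, smul_eq_mul, smul_smul]
    ring_nf

theorem comp_mem (hX : Surface X) (y : ι → V) (hy : y ∈ blow l X) {b : ι} (hb : y b ≠ 0) : y b ∈ X := by
  have h1 : y b ∈ closure (insert 0 X) := by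
    have h2 : Set.MapsTo (fun y : ι → V => y b) (dense l X) (insert 0 X) := by
      rintro _ ⟨x, hx, -, c, hc, rfl⟩
      show c • l b x • x ∈ insert 0 X
      rw [smul_smul]
      by_cases h3 : c * l b x = 0
      · rw [h3, zero_smul]
        exact Set.mem_insert _ _
      · exact Set.mem_insert_of_mem _ (hX.smul x hx _ h3)
    exact h2.closure (continuous_apply b) hy.1
  rw [Set.insert_eq, closure_union, closure_singleton, Set.mem_union, Set.mem_singleton_iff] at h1
  rcases h1 with h1 | h1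
  · exact absurd h1 hb
  · exact hX.closed _ h1 hb

theorem ne_of_ne (y : ι → V) (hy : y ∈ blow l X) {b b' : ι} (hb : y b ≠ 0) (hb' : l b' (y b) ≠ 0) : l b (y b) ≠ 0 := by
  have h1 := prop y hy (l b') b b'
  have h2 := symm y hy b b'
  have h3 : y b' ≠ 0 := by
    intro h0
    rw [h0, map_zero] at h2
    exact hb' h2.symm
  intro h0
  have h4 := prop y hy (l b) b b'
  rw [h0, zero_smul, h2] at h4
  exact (smul_ne_zero hb' hb) h4.symm

theorem eq_phi (y : ι → V) (hy : y ∈ blow l X) {b b' : ι} (hb : y b ≠ 0) (hb' : l b' (y b) ≠ 0) :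
    y = (l b (y b))⁻¹ • phi l (y b) := by
  have h1 := ne_of_ne y hy hb hb'
  funext c
  have h2 := prop y hy (l b) b c
  rw [symm y hy b c] at h2
  simp only [phi, Pi.smul_apply]
  rw [← h2, smul_smul, inv_mul_cancel₀ h1, one_smul]

theorem mem_dense_of_ne (hX : Surface X) (y : ι → V) (hy : y ∈ blow l X) {b b' : ι} (hb : y b ≠ 0)
    (hb' : l b' (y b) ≠ 0) : y ∈ dense l X := by
  rw [eq_phi y hy hb hb']
  exact dense_smul (phi_mem_dense (comp_mem hX y hy hb) ⟨b', hb'⟩) (inv_ne_zero (ne_of_ne y hy hb hb'))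

theorem exists_ne (y : ι → V) (hy : y ∈ blow l X) : ∃ b, y b ≠ 0 := by
  by_contra h
  push Not at h
  exact hy.2 (funext h)

/-- the components are proportional -/
theorem comp_smul (y : ι → V) (hy : y ∈ blow l X) {b : ι} (hb : y b ≠ 0) (b' : ι) :
    ∃ c : ℂ, y b' = c • y b := by
  obtain ⟨Λ, hΛ⟩ := exists_dual_vector ℂ (y b) (norm_ne_zero_iff.mpr hb)
  have h1 : (Λ (y b)) ≠ 0 := by
    rw [hΛ.2]
    simpa using hb
  have h2 := prop y hy Λ b b'
  refine ⟨(Λ (y b))⁻¹ * Λ (y b'), ?_⟩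
  rw [mul_smul, ← h2, smul_smul, inv_mul_cancel₀ h1, one_smul]

end Pool.Agent.H62.BU
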