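import Mathlib

/-!
# BU Had: Hadamard's lemma

If `f` is analytic at `x₀` then `f x = f x₀ + S x (x - x₀)` near `x₀` with `S` analytic at `x₀`, `S x₀ = fderiv f x₀`.
-/

set_option autoImplicit false

namespace Pool.Agent.H62.BU

open Filter Topology

variable {E F : Type*} [NormedAddCommGroup E] [NormedSpace ℂ E] [NormedAddCommGroup F] [NormedSpace ℂ F]

/-- Hadamard's lemma for analytic functions -/
theorem hadamard [CompleteSpace F] {f : E → F} {x₀ : E} (hf : AnalyticAt ℂ f x₀) :
    ∃ S : E → E →L[ℂ] F, AnalyticAt ℂ S x₀ ∧ S x₀ = fderiv ℂ f x₀ ∧ ∀ᶠ x in 𝓝 x₀, f x = f x₀ + S x (x - x₀) := by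
  obtain ⟨p, r, hp⟩ := hf
  have hr : r ≤ p.shift.radius := by
    rw [FormalMultilinearSeries.radius_shift]
    exact hp.r_le
  have hpos : 0 < p.shift.radius := lt_of_lt_of_le hp.r_pos hr
  have h1 : HasFPowerSeriesOnBall p.shift.sum p.shift 0 r :=
    p.shift.hasFPowerSeriesOnBall hpos |>.mono hp.r_pos hr
  set S : E → E →L[ℂ] F := fun x => p.shift.sum (x - x₀) with hS
  have h2 : HasFPowerSeriesOnBall S p.shift x₀ r := by
    have := h1.comp_sub x₀
    simpa using this
  have h3 := h2.unshift (z := f x₀)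
  have h4 : p.shift.unshift (f x₀) = p := by
    ext n
    cases n with
    | zero =>
      rw [FormalMultilinearSeries.unshift]
      simp only [ContinuousMultilinearMap.uncurry0_apply, continuousMultilinearCurryFin0_symm_apply]
      exact (hp.coeff_zero _).symm
    | succ n =>
      simp only [FormalMultilinearSeries.unshift, FormalMultilinearSeries.shift]
      simp
  have h5 : ∀ᶠ x in 𝓝 x₀, f x = f x₀ + S x (x - x₀) := by
    have e1 : HasFPowerSeriesOnBall (fun y => f x₀ + S y (y - x₀)) p x₀ r := by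
      rw [h4] at h3
      exact h3
    have e2 := hp.unique e1
    filter_upwards [Metric.eball_mem_nhds x₀ hp.r_pos] with x hx
    exact e2 hx
  refine ⟨S, h2.analyticAt, ?_, h5⟩
  have e3 : HasFDerivAt f (S x₀) x₀ := by
    have e4 : HasFDerivAt (fun y => f x₀ + S y (y - x₀)) (S x₀) x₀ := by
      have e5 : HasFDerivAt S (fderiv ℂ S x₀) x₀ := h2.analyticAt.differentiableAt.hasFDerivAt
      have e6 : HasFDerivAt (fun y : E => y - x₀) (ContinuousLinearMap.id ℂ E) x₀ :=
        (hasFDerivAt_id x₀).sub_const x₀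
      have e7 := (e5.clm_apply e6).const_add (f x₀)
      refine e7.congr_fderiv ?_
      ext v
      simp
    exact e4.congr_of_eventuallyEq h5
  exact e3.fderiv.symm

end Pool.Agent.H62.BU
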