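import Pool.Agent.H62.BU.Ch
import Pool.Agent.H62.BU.Had
import Pool.Agent.H62.BU.Inv

/-!
# BU Exc: the chart of the blow-up at a point of the exceptional curve

Hadamard (`hadamard`, `V` is complete): `σ p = q + S p p` near `0`, `S` analytic at `0`, `S 0 = fderiv ℂ σ 0`.  Put `g (u, v) = S (u, u v) (1, v)` (analytic at `0`), `L_b (u, v) = l_b (g (u, v))`; as
`l_b q = 0`: `l_b (σ (u, u v)) = u L_b (u, v)` near `0`.  `σ1 (u, v) = (L_b (u, v) • σ (u, u v))_b`.  So `phi l (σ (u, u v)) = u • σ1 (u, v)`.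

The vectors `α = (l_b (Dσ(0)(1,0)))_b = (L_b 0)_b` and `β = (l_b (Dσ(0)(0,1)))_b` are linearly independent (`Ker`, `indep`).  Choose `b₀` with `α_(b₀) ≠ 0` and `b₁` with
`δ = β_(b₁) α_(b₀) - β_(b₀) α_(b₁) ≠ 0`.  `a = α_(b₀)`.  Choose `Λ : V →L ℂ` with `Λ q = 1` (`q ≠ 0`).

`Φ (u, v) = (u, L_(b₁)(u, v) / L_(b₀)(u, v))` is analytic at `0`, its derivative at `0` is invertible: `∂_v` of the second component at `0` is `δ / a²` (`L_b (0, v) = l_b (Dσ(0)(1, v))`).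
Let `Ψ` be the local inverse at `Φ 0 = (0, α_(b₁)/a)` (`AnalyticAt` inverse function theorem: `HasStrictFDerivAt.toOpenPartialHomeomorph`, or `AnalyticAt.analyticAt_localInverse`),
`τ1 y = Ψ ((τ (a⁻¹ • y b₀)).1, Λ (y b₁) / Λ (y b₀))`.

* `σ1 0 = (α_b • q)_b ≠ 0`; `σ1 p ∈ blow`: for `u ≠ 0` small it is `u⁻¹ • phi l (σ (u, u v))` with `σ (u, u v) ∉ ℂ q` (otherwise `τ` gives `(u, u v) = 0`: from `S`: the value `l (σ (u, u v)) = u L(u, v) ≠ 0` as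
  `L_(b₀) ≠ 0` near `0`): in `dense`; for `u = 0` a limit of such points (`blow_closed`, `σ1 p ≠ 0` near `0`).
* `left`: `σ1 (u,v) b₀ = L_(b₀) • σ (u, u v)`, so `(τ (a⁻¹ • ..)).1 = u` by `inv`, `left` (`a⁻¹ L_(b₀) (u, v)` is near `1`), and `Λ (y b₁)/Λ (y b₀) = L_(b₁)/L_(b₀)`.
* `inv`: clear.
* `right` on `dense` (`isChart_of_dense`): `y = c • phi l x` near `σ1 0`; `x' = a⁻¹ • y b₀` is near `q` and in `X` (it is a multiple of `x`, the factor is not `0` because `y b₀ ≠ 0`), so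
  `x' = c' • σ (s, t)`, `(s, t) = τ x'` near `0`.  Put `(u, v) = τ1 y`, so `u = s` (as `Φ (Ψ w) = w` near `Φ 0`) and `[L_(b₁)/L_(b₀)] (u, v) = κ`, `κ = Λ (y b₁)/Λ (y b₀) = l_(b₁) x / l_(b₀) x = l_(b₁)(σ (s,t)) / l_(b₀)(σ (s,t))`.
  The function `M (t) = l_(b₁) (σ (s, t)) - κ l_(b₀) (σ (s, t))` vanishes at `t` and at `s (c_0 + v)` with `c_0 = 0`, i.e. at `s v`: `M` is injective near `0`, uniformly in `s`, `κ` near `0`, `α_(b₁)/a`, because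
  its derivative is near `β_(b₁) - κ β_(b₀)`, near `δ/a ≠ 0` (e.g. apply the inverse function theorem (local injectivity, `HasStrictFDerivAt.. injOn`) to
  `(s, κ, t) ↦ (s, κ, l_(b₁)(σ (s,t)) - κ l_(b₀)(σ (s,t)))` at `(0, α_(b₁)/a, 0)`).  So `t = s v`; `s ≠ 0` because otherwise `t = 0`, `x` is a multiple of `q`, all `l_b x = 0`.  Hence `x` is a multiple of `σ (u, u v)` and `y` of
  `phi l (σ (u, u v)) = u • σ1 (u, v)`.
-/

set_option autoImplicit false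

namespace Pool.Agent.H62.BU

open Filter Topology

variable {V : Type*} [NormedAddCommGroup V] [NormedSpace ℂ V] {ι : Type*} [Fintype ι]
variable {l : ι → V →L[ℂ] ℂ} {X : Set V} {σ : ℂ × ℂ → V} {τ : V → ℂ × ℂ}

/-- the common kernel of the forms is the line through `q` -/
def Ker (l : ι → V →L[ℂ] ℂ) (q : V) : Prop := ∀ v : V, (∀ b, l b v = 0) ↔ ∃ c : ℂ, v = c • q

private theorem exc_clm {E F : Type*} [NormedAddCommGroup E] [NormedSpace ℂ E] [NormedAddCommGroup F] [NormedSpace ℂ F] {G : Type*}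
    [NormedAddCommGroup G] [NormedSpace ℂ G] {S : G → E →L[ℂ] F} {f : G → E} {x : G} (hS : AnalyticAt ℂ S x) (hf : AnalyticAt ℂ f x) :
    AnalyticAt ℂ (fun p => S p (f p)) x :=
  AnalyticAt.comp ((ContinuousLinearMap.id ℂ (E →L[ℂ] F)).analyticAt_bilinear _) (hS.prod hf)

theorem chart_exc [FiniteDimensional ℂ V] (hX : Surface X) {q : V} (hl : Ker l q) (h : IsChart X σ τ) (h0 : σ 0 = q) :
    ∃ (σ1 : ℂ × ℂ → ι → V) (τ1 : (ι → V) → ℂ × ℂ), IsChart (blow l X) σ1 τ1 ∧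
      (∀ᶠ p in 𝓝 (0 : ℂ × ℂ), phi l (σ (p.1, p.1 * p.2)) = p.1 • σ1 p) ∧ σ1 0 = fun b => l b (fderiv ℂ σ 0 (1, 0)) • q := by
  have : CompleteSpace V := FiniteDimensional.complete ℂ V
  have hq0 : q ≠ 0 := h0 ▸ h.ne
  obtain ⟨S, hS, hS0, hσS⟩ := hadamard h.σ_an
  have hlq : ∀ b, l b q = 0 := (hl q).mpr ⟨1, (one_smul _ _).symm⟩
  obtain ⟨m, hm⟩ : ∃ m : ℂ × ℂ → ℂ × ℂ, ∀ p, m p = (p.1, p.1 * p.2) := ⟨fun p => (p.1, p.1 * p.2), fun p => rfl⟩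
  have hm_an : ∀ p, AnalyticAt ℂ m p := fun p => by
    have : m = fun p => (p.1, p.1 * p.2) := funext hm
    rw [this]
    exact analyticAt_fst.prod (analyticAt_fst.mul analyticAt_snd)
  have hm0 : m 0 = 0 := by rw [hm]; simp
  have hmt : Tendsto m (𝓝 0) (𝓝 0) := by
    have := (hm_an 0).continuousAt.tendsto
    rwa [hm0] at this
  obtain ⟨L, hL⟩ : ∃ L : ι → ℂ × ℂ → ℂ, ∀ b p, L b p = l b (S (m p) (1, p.2)) := ⟨fun b p => l b (S (m p) (1, p.2)), fun b p => rfl⟩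
  have hL_an : ∀ b, AnalyticAt ℂ (L b) 0 := fun b => by
    have e1 : L b = fun p => l b (S (m p) (1, p.2)) := funext (hL b)
    rw [e1]
    have e2 : AnalyticAt ℂ (fun p => S (m p)) 0 := AnalyticAt.comp (by rw [hm0]; exact hS) (hm_an 0)
    exact ((l b).analyticAt _).comp (exc_clm e2 (analyticAt_const.prod analyticAt_snd))
  have hlσ : ∀ᶠ p in 𝓝 (0 : ℂ × ℂ), ∀ b, l b (σ (m p)) = p.1 * L b p := by
    filter_upwards [hmt.eventually hσS] with p hp b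
    rw [hp, map_add, h0, hlq, zero_add, sub_zero, hL]
    have e1 : m p = p.1 • ((1 : ℂ), p.2) := by
      rw [hm]
      simp
    conv_lhs => rw [e1]
    rw [map_smul, map_smul, smul_eq_mul, ← e1]
  obtain ⟨σ1, hσ1⟩ : ∃ σ1 : ℂ × ℂ → ι → V, ∀ p b, σ1 p b = L b p • σ (m p) := ⟨fun p b => L b p • σ (m p), fun p b => rfl⟩
  have hσm : AnalyticAt ℂ (fun p => σ (m p)) 0 := AnalyticAt.comp (by rw [hm0]; exact h.σ_an) (hm_an 0)
  have hσ1_an : AnalyticAt ℂ σ1 0 := by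
    have e1 : σ1 = fun p b => L b p • σ (m p) := by
      funext p b
      exact hσ1 p b
    rw [e1]
    exact AnalyticAt.pi fun b => (hL_an b).smul hσm
  obtain ⟨α, hα⟩ : ∃ α : ι → ℂ, ∀ b, α b = l b (fderiv ℂ σ 0 (1, 0)) := ⟨_, fun b => rfl⟩
  obtain ⟨β, hβ⟩ : ∃ β : ι → ℂ, ∀ b, β b = l b (fderiv ℂ σ 0 (0, 1)) := ⟨_, fun b => rfl⟩
  have hLt : ∀ b (t : ℂ), L b (0, t) = α b + t * β b := fun b t => by
    rw [hL, hm]
    have e1 : ((0 : ℂ × ℂ).1, (0 : ℂ × ℂ).1 * t) = (0 : ℂ × ℂ) := by simp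
    have e2 : (((0 : ℂ), t).1, ((0 : ℂ), t).1 * ((0 : ℂ), t).2) = (0 : ℂ × ℂ) := by simp
    rw [e2, hS0, hα, hβ]
    have e3 : ((1 : ℂ), t) = (1, 0) + t • ((0 : ℂ), (1 : ℂ)) := by simp
    rw [e3, map_add, map_smul, map_add, map_smul, smul_eq_mul]
  have hL0 : ∀ b, L b 0 = α b := fun b => by
    have := hLt b 0
    rw [zero_mul, add_zero] at this
    exact this
  have hσ10 : σ1 0 = fun b => α b • q := by
    funext b
    rw [hσ1, hL0, hm0, h0]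
  have hind : ∀ x y : ℂ, (∀ b, x * α b + y * β b = 0) → x = 0 ∧ y = 0 := fun x y hxy => by
    have e1 : ∀ b, l b (fderiv ℂ σ 0 (x, y)) = 0 := fun b => by
      have e2 : ((x, y) : ℂ × ℂ) = x • ((1 : ℂ), (0 : ℂ)) + y • ((0 : ℂ), (1 : ℂ)) := by simp
      rw [e2, map_add, map_smul, map_smul, map_add, map_smul, map_smul, smul_eq_mul, smul_eq_mul, ← hα, ← hβ]
      exact hxy b
    obtain ⟨c, hc⟩ := (hl _).mp e1
    rw [← h0] at hc
    have e3 := h.indep hc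
    exact ⟨congrArg Prod.fst e3, congrArg Prod.snd e3⟩
  obtain ⟨b₀, hb₀⟩ : ∃ b, α b ≠ 0 := by
    by_contra hcon
    push Not at hcon
    exact one_ne_zero (hind 1 0 fun b => by rw [hcon b]; ring).1
  obtain ⟨b₁, hb₁⟩ : ∃ b, β b * α b₀ - β b₀ * α b ≠ 0 := by
    by_contra hcon
    push Not at hcon
    exact hb₀ (hind (-β b₀) (α b₀) fun b => by linear_combination hcon b).2
  obtain ⟨Λ, hΛ⟩ : ∃ Λ : V →L[ℂ] ℂ, Λ q ≠ 0 := by
    obtain ⟨Λ, hΛ⟩ := exists_dual_vector ℂ q (norm_ne_zero_iff.mpr hq0)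
    refine ⟨Λ, ?_⟩
    rw [hΛ.2]
    simpa using hq0
  -- the map `Φ`
  obtain ⟨R, hR⟩ : ∃ R : ℂ × ℂ → ℂ, ∀ p, R p = L b₁ p / L b₀ p := ⟨_, fun p => rfl⟩
  have hL00 : L b₀ 0 ≠ 0 := by rw [hL0]; exact hb₀
  have hR_an : AnalyticAt ℂ R 0 := by
    have e1 : R = fun p => L b₁ p / L b₀ p := funext hR
    rw [e1]
    exact (hL_an b₁).div (hL_an b₀) hL00
  obtain ⟨Φ, hΦ⟩ : ∃ Φ : ℂ × ℂ → ℂ × ℂ, ∀ p, Φ p = (p.1, R p) := ⟨_, fun p => rfl⟩
  have hΦ_an : AnalyticAt ℂ Φ 0 := by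
    have e1 : Φ = fun p => (p.1, R p) := funext hΦ
    rw [e1]
    exact analyticAt_fst.prod hR_an
  have hΦ0 : Φ 0 = (0, α b₁ / α b₀) := by
    rw [hΦ, hR, hL0, hL0]
    rfl
  have hΦi : ∀ v, fderiv ℂ Φ 0 v = 0 → v = 0 := by
    have e1 : HasFDerivAt Φ (fderiv ℂ Φ 0) 0 := hΦ_an.differentiableAt.hasFDerivAt
    have e2 : HasFDerivAt (fun p => (Φ p).1) ((ContinuousLinearMap.fst ℂ ℂ ℂ).comp (fderiv ℂ Φ 0)) 0 :=
      (ContinuousLinearMap.fst ℂ ℂ ℂ).hasFDerivAt.comp _ e1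
    have e3 : HasFDerivAt (fun p : ℂ × ℂ => p.1) (ContinuousLinearMap.fst ℂ ℂ ℂ) (0 : ℂ × ℂ) := hasFDerivAt_fst
    have e4 : (fun p => (Φ p).1) = fun p : ℂ × ℂ => p.1 := by
      funext p
      rw [hΦ]
    rw [e4] at e2
    have e5 := e2.unique e3
    have e6 : HasDerivAt (fun t : ℂ => Φ (0, t)) (fderiv ℂ Φ 0 (0, 1)) 0 := by
      have a1 : HasDerivAt (fun t : ℂ => ((0 : ℂ), t)) (0, 1) 0 := (hasDerivAt_const _ _).prodMk (hasDerivAt_id _)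
      exact HasFDerivAt.comp_hasDerivAt (0 : ℂ) (l := Φ) (l' := fderiv ℂ Φ 0) e1 a1
    have e7 : HasDerivAt (fun t : ℂ => (Φ (0, t)).2) ((fderiv ℂ Φ 0 (0, 1)).2) 0 :=
      (ContinuousLinearMap.snd ℂ ℂ ℂ).hasFDerivAt.comp_hasDerivAt _ e6
    have e8 : HasDerivAt (fun t : ℂ => (α b₁ + t * β b₁) / (α b₀ + t * β b₀))
        ((β b₁ * α b₀ - α b₁ * β b₀) / α b₀ ^ 2) 0 := by
      have a1 : HasDerivAt (fun t : ℂ => α b₁ + t * β b₁) (β b₁) 0 := by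
        simpa using ((hasDerivAt_id (0 : ℂ)).mul_const (β b₁)).const_add (α b₁)
      have a2 : HasDerivAt (fun t : ℂ => α b₀ + t * β b₀) (β b₀) 0 := by
        simpa using ((hasDerivAt_id (0 : ℂ)).mul_const (β b₀)).const_add (α b₀)
      have a3 := a1.fun_div a2 (by simpa using hb₀)
      simpa using a3
    have e9 : (fun t : ℂ => (Φ (0, t)).2) = fun t : ℂ => (α b₁ + t * β b₁) / (α b₀ + t * β b₀) := by
      funext t
      rw [hΦ, hR, hLt, hLt]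
    rw [e9] at e7
    have e10 := e7.unique e8
    intro v hv
    have f1 : v.1 = 0 := by
      have := congrArg (fun A : (ℂ × ℂ) →L[ℂ] ℂ => A v) e5
      simp only [ContinuousLinearMap.comp_apply, hv] at this
      simpa using this.symm
    have f2 : v = v.2 • ((0 : ℂ), (1 : ℂ)) := by
      ext
      · simp [f1]
      · simp
    rw [f2, map_smul] at hv
    have f3 : v.2 * (fderiv ℂ Φ 0 (0, 1)).2 = 0 := by
      have := congrArg Prod.snd hv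
      simpa using this
    rw [e10] at f3
    have f4 : (β b₁ * α b₀ - α b₁ * β b₀) / α b₀ ^ 2 ≠ 0 := by
      refine div_ne_zero ?_ (pow_ne_zero _ hb₀)
      rw [mul_comm (α b₁)]
      exact hb₁
    rw [f2, (mul_eq_zero.mp f3).resolve_right f4, zero_smul]
  obtain ⟨Ψ, hΨ_an, hΨl, hΨr, hΨ0⟩ := local_inverse hΦ_an hΦi
  -- the map `Θ`
  obtain ⟨Θ, hΘ⟩ : ∃ Θ : ℂ × ℂ × ℂ → ℂ × ℂ × ℂ, ∀ w, Θ w =
      (w.1, w.2.1, l b₁ (σ (w.1, w.2.2)) - w.2.1 * l b₀ (σ (w.1, w.2.2))) := ⟨_, fun p => rfl⟩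
  obtain ⟨w₀, hw₀⟩ : ∃ w₀ : ℂ × ℂ × ℂ, w₀ = (0, α b₁ / α b₀, 0) := ⟨_, rfl⟩
  have hσw : AnalyticAt ℂ (fun w : ℂ × ℂ × ℂ => σ (w.1, w.2.2)) w₀ := by
    have a1 : AnalyticAt ℂ (fun w : ℂ × ℂ × ℂ => (w.1, w.2.2)) w₀ :=
      analyticAt_fst.prod (AnalyticAt.comp analyticAt_snd analyticAt_snd)
    refine AnalyticAt.comp (f := fun w : ℂ × ℂ × ℂ => (w.1, w.2.2)) (g := σ) ?_ a1
    rw [hw₀]
    exact h.σ_an
  have hΘ_an : AnalyticAt ℂ Θ w₀ := by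
    have e1 : Θ = fun w => (w.1, w.2.1, l b₁ (σ (w.1, w.2.2)) - w.2.1 * l b₀ (σ (w.1, w.2.2))) := funext hΘ
    rw [e1]
    have a2 : ∀ b, AnalyticAt ℂ (fun w : ℂ × ℂ × ℂ => l b (σ (w.1, w.2.2))) w₀ := fun b =>
      ((l b).analyticAt _).comp hσw
    have a3 : AnalyticAt ℂ (fun w : ℂ × ℂ × ℂ => w.2.1) w₀ := AnalyticAt.comp analyticAt_fst analyticAt_snd
    exact analyticAt_fst.prod (a3.prod ((a2 b₁).sub (a3.mul (a2 b₀))))
  have hΘi : ∀ v, fderiv ℂ Θ w₀ v = 0 → v = 0 := by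
    have e1 : HasFDerivAt Θ (fderiv ℂ Θ w₀) w₀ := hΘ_an.differentiableAt.hasFDerivAt
    have e2 : ∀ v, (fderiv ℂ Θ w₀ v).1 = v.1 := by
      have a1 : HasFDerivAt (fun p => (Θ p).1) ((ContinuousLinearMap.fst ℂ ℂ (ℂ × ℂ)).comp (fderiv ℂ Θ w₀)) w₀ :=
        (ContinuousLinearMap.fst ℂ ℂ (ℂ × ℂ)).hasFDerivAt.comp _ e1
      have a2 : (fun p => (Θ p).1) = fun p : ℂ × ℂ × ℂ => p.1 := by
        funext p
        rw [hΘ]
      rw [a2] at a1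
      have a3 := a1.unique (hasFDerivAt_fst (𝕜 := ℂ) (p := w₀))
      intro v
      have := congrArg (fun A : (ℂ × ℂ × ℂ) →L[ℂ] ℂ => A v) a3
      simpa using this
    have e3 : ∀ v, (fderiv ℂ Θ w₀ v).2.1 = v.2.1 := by
      have a1 : HasFDerivAt (fun p => (Θ p).2.1)
          (((ContinuousLinearMap.fst ℂ ℂ ℂ).comp (ContinuousLinearMap.snd ℂ ℂ (ℂ × ℂ))).comp (fderiv ℂ Θ w₀)) w₀ :=
        ((ContinuousLinearMap.fst ℂ ℂ ℂ).comp (ContinuousLinearMap.snd ℂ ℂ (ℂ × ℂ))).hasFDerivAt.comp _ e1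
      have a2 : (fun p => (Θ p).2.1) = fun p : ℂ × ℂ × ℂ => p.2.1 := by
        funext p
        rw [hΘ]
      rw [a2] at a1
      have a4 : HasFDerivAt (fun p : ℂ × ℂ × ℂ => p.2.1)
          ((ContinuousLinearMap.fst ℂ ℂ ℂ).comp (ContinuousLinearMap.snd ℂ ℂ (ℂ × ℂ))) w₀ :=
        ((ContinuousLinearMap.fst ℂ ℂ ℂ).comp (ContinuousLinearMap.snd ℂ ℂ (ℂ × ℂ))).hasFDerivAt
      have a3 := a1.unique a4
      intro v
      have := congrArg (fun A : (ℂ × ℂ × ℂ) →L[ℂ] ℂ => A v) a3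
      simpa using this
    have e6 : HasDerivAt (fun t : ℂ => Θ (0, α b₁ / α b₀, t)) (fderiv ℂ Θ w₀ (0, 0, 1)) 0 := by
      have a1 : HasDerivAt (fun t : ℂ => ((0 : ℂ), α b₁ / α b₀, t)) (0, 0, 1) 0 :=
        (hasDerivAt_const _ _).prodMk ((hasDerivAt_const _ _).prodMk (hasDerivAt_id _))
      have a2 : HasFDerivAt Θ (fderiv ℂ Θ w₀) ((0 : ℂ), α b₁ / α b₀, (0 : ℂ)) := by
        rw [← hw₀]
        exact e1
      exact HasFDerivAt.comp_hasDerivAt (0 : ℂ) (l := Θ) (l' := fderiv ℂ Θ w₀) a2 a1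
    have e7 : HasDerivAt (fun t : ℂ => (Θ (0, α b₁ / α b₀, t)).2.2) ((fderiv ℂ Θ w₀ (0, 0, 1)).2.2) 0 :=
      ((ContinuousLinearMap.snd ℂ ℂ ℂ).comp (ContinuousLinearMap.snd ℂ ℂ (ℂ × ℂ))).hasFDerivAt.comp_hasDerivAt _ e6
    have e8 : HasDerivAt (fun t : ℂ => σ (0, t)) (fderiv ℂ σ 0 (0, 1)) 0 := by
      have a1 : HasDerivAt (fun t : ℂ => ((0 : ℂ), t)) (0, 1) 0 := (hasDerivAt_const _ _).prodMk (hasDerivAt_id _)
      have a2 : HasFDerivAt σ (fderiv ℂ σ 0) ((0 : ℂ), (0 : ℂ)) := h.σ_an.differentiableAt.hasFDerivAt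
      exact HasFDerivAt.comp_hasDerivAt (0 : ℂ) (l := σ) (l' := fderiv ℂ σ 0) a2 a1
    have e9 : ∀ b, HasDerivAt (fun t : ℂ => l b (σ (0, t))) (β b) 0 := fun b => by
      rw [hβ]
      exact (l b).hasFDerivAt.comp_hasDerivAt _ e8
    have e10 : HasDerivAt (fun t : ℂ => l b₁ (σ (0, t)) - α b₁ / α b₀ * l b₀ (σ (0, t))) (β b₁ - α b₁ / α b₀ * β b₀) 0 :=
      (e9 b₁).sub ((e9 b₀).const_mul _)
    have e11 : (fun t : ℂ => (Θ (0, α b₁ / α b₀, t)).2.2) = fun t : ℂ => l b₁ (σ (0, t)) - α b₁ / α b₀ * l b₀ (σ (0, t)) := by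
      funext t
      rw [hΘ]
    rw [e11] at e7
    have e12 := e7.unique e10
    intro v hv
    have f1 : v.1 = 0 := by
      have := e2 v
      rw [hv] at this
      exact this.symm
    have f2 : v.2.1 = 0 := by
      have := e3 v
      rw [hv] at this
      exact this.symm
    have f3 : v = v.2.2 • ((0 : ℂ), (0 : ℂ), (1 : ℂ)) := by
      ext
      · simp [f1]
      · simp [f2]
      · simp
    rw [f3, map_smul] at hv
    have f4 : v.2.2 * (fderiv ℂ Θ w₀ (0, 0, 1)).2.2 = 0 := by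
      have := congrArg (fun w : ℂ × ℂ × ℂ => w.2.2) hv
      simpa using this
    rw [e12] at f4
    have f5 : β b₁ - α b₁ / α b₀ * β b₀ ≠ 0 := by
      intro hcon
      apply hb₁
      field_simp at hcon
      linear_combination hcon
    rw [f3, (mul_eq_zero.mp f4).resolve_right f5, zero_smul]
  obtain ⟨Ξ, -, hΞl, -, -⟩ := local_inverse hΘ_an hΘi
  -- the chart
  obtain ⟨τ1, hτ1⟩ : ∃ τ1 : (ι → V) → ℂ × ℂ, ∀ y, τ1 y = Ψ ((τ ((α b₀)⁻¹ • y b₀)).1, Λ (y b₁) / Λ (y b₀)) := ⟨_, fun y => rfl⟩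
  have hev : ∀ b, Tendsto (fun y : ι → V => y b) (𝓝 (σ1 0)) (𝓝 (α b • q)) := fun b => by
    have := (continuous_apply b).tendsto (σ1 0)
    rwa [hσ10] at this ⊢
  have hx' : Tendsto (fun y : ι → V => (α b₀)⁻¹ • y b₀) (𝓝 (σ1 0)) (𝓝 (σ 0)) := by
    have := (hev b₀).const_smul (α b₀)⁻¹
    rwa [smul_smul, inv_mul_cancel₀ hb₀, one_smul, ← h0] at this
  have hτσ0 : τ (σ 0) = 0 := h.left.self_of_nhds
  have hst : Tendsto (fun y : ι → V => τ ((α b₀)⁻¹ • y b₀)) (𝓝 (σ1 0)) (𝓝 0) := by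
    have := h.τ_an.continuousAt.tendsto.comp hx'
    rwa [hτσ0] at this
  have hκ : Tendsto (fun y : ι → V => Λ (y b₁) / Λ (y b₀)) (𝓝 (σ1 0)) (𝓝 (α b₁ / α b₀)) := by
    have a1 : ∀ b, Tendsto (fun y : ι → V => Λ (y b)) (𝓝 (σ1 0)) (𝓝 (α b * Λ q)) := fun b => by
      have := (Λ.continuous.tendsto _).comp (hev b)
      rwa [map_smul, smul_eq_mul] at this
    have a2 := (a1 b₁).div (a1 b₀) (mul_ne_zero hb₀ hΛ)
    rwa [mul_div_mul_right _ _ hΛ] at a2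
  have hin : Tendsto (fun y : ι → V => ((τ ((α b₀)⁻¹ • y b₀)).1, Λ (y b₁) / Λ (y b₀))) (𝓝 (σ1 0)) (𝓝 (Φ 0)) := by
    rw [hΦ0]
    exact ((continuous_fst.tendsto _).comp hst).prodMk_nhds hκ
  have hΛ0 : ∀ᶠ y in 𝓝 (σ1 0), Λ (y b₀) ≠ 0 := by
    have a1 : Tendsto (fun y : ι → V => Λ (y b₀)) (𝓝 (σ1 0)) (𝓝 (α b₀ * Λ q)) := by
      have := (Λ.continuous.tendsto _).comp (hev b₀)
      rwa [map_smul, smul_eq_mul] at this
    exact a1.eventually_ne (mul_ne_zero hb₀ hΛ)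
  have hσ1ne : σ1 0 ≠ 0 := by
    rw [hσ10]
    intro hcon
    have := congrFun hcon b₀
    exact (smul_ne_zero hb₀ hq0) this
  have hphi : ∀ᶠ p in 𝓝 (0 : ℂ × ℂ), phi l (σ (m p)) = p.1 • σ1 p := by
    filter_upwards [hlσ] with p hp
    funext b
    simp only [phi, Pi.smul_apply, hσ1, smul_smul]
    rw [hp b]
  have hL0ev : ∀ᶠ p in 𝓝 (0 : ℂ × ℂ), L b₀ p ≠ 0 := (hL_an b₀).continuousAt.eventually_ne hL00
  refine ⟨σ1, τ1, isChart_of_dense hσ1_an ?_ ?_ ?_ ?_ ?_, ?_, ?_⟩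
  · -- `σ1 p ∈ blow`
    have a1 : ∀ᶠ p in 𝓝 (0 : ℂ × ℂ), p.1 ≠ 0 → σ1 p ∈ dense l X := by
      filter_upwards [hphi, hlσ, hL0ev, hmt.eventually h.σ_mem] with p h1 h2 h3 h4 h5
      refine ⟨σ (m p), h4, ⟨b₀, ?_⟩, (p.1)⁻¹, inv_ne_zero h5, ?_⟩
      · rw [h2]
        exact mul_ne_zero h5 h3
      · rw [h1, smul_smul, inv_mul_cancel₀ h5, one_smul]
    have a2 : ∀ᶠ p in 𝓝 (0 : ℂ × ℂ), ∀ᶠ p' in 𝓝 p, p'.1 ≠ 0 → σ1 p' ∈ dense l X := a1.eventually_nhds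
    filter_upwards [a2, hσ1_an.eventually_analyticAt, hσ1_an.continuousAt.eventually_ne hσ1ne] with p h1 h2 h3
    refine ⟨?_, h3⟩
    by_cases h4 : p.1 = 0
    · have a3 : Tendsto (fun u : ℂ => ((u, p.2) : ℂ × ℂ)) (𝓝[≠] 0) (𝓝 p) := by
        have : Tendsto (fun u : ℂ => ((u, p.2) : ℂ × ℂ)) (𝓝 0) (𝓝 (0, p.2)) :=
          (continuous_id.prodMk continuous_const).tendsto 0
        have e : ((0 : ℂ), p.2) = p := by rw [← h4]
        rw [e] at this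
        exact this.mono_left nhdsWithin_le_nhds
      refine mem_closure_of_tendsto (h2.continuousAt.tendsto.comp a3) ?_
      filter_upwards [a3.eventually h1, self_mem_nhdsWithin] with u hu hu0
      exact hu hu0
    · exact subset_closure (h1.self_of_nhds h4)
  · -- `τ1` is analytic
    have e1 : τ1 = fun y => Ψ ((τ ((α b₀)⁻¹ • y b₀)).1, Λ (y b₁) / Λ (y b₀)) := funext hτ1
    rw [e1]
    have a0 : ∀ b, AnalyticAt ℂ (fun y : ι → V => y b) (σ1 0) := fun b =>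
      (ContinuousLinearMap.proj (R := ℂ) (φ := fun _ : ι => V) b).analyticAt _
    have a1 : AnalyticAt ℂ (fun y : ι → V => τ ((α b₀)⁻¹ • y b₀)) (σ1 0) := by
      refine AnalyticAt.comp (f := fun y : ι → V => (α b₀)⁻¹ • y b₀) (g := τ) ?_ ((a0 b₀).const_smul (c := (α b₀)⁻¹))
      have e2 : (α b₀)⁻¹ • σ1 0 b₀ = σ 0 := by
        rw [hσ10, smul_smul, inv_mul_cancel₀ hb₀, one_smul, h0]
      rw [e2]
      exact h.τ_an
    have a2 : ∀ b, AnalyticAt ℂ (fun y : ι → V => Λ (y b)) (σ1 0) := fun b => (Λ.analyticAt _).comp (a0 b)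
    have a3 : AnalyticAt ℂ (fun y : ι → V => ((τ ((α b₀)⁻¹ • y b₀)).1, Λ (y b₁) / Λ (y b₀))) (σ1 0) :=
      (AnalyticAt.comp analyticAt_fst a1).prod ((a2 b₁).div (a2 b₀) hΛ0.self_of_nhds)
    refine AnalyticAt.comp (g := Ψ) ?_ a3
    have e3 : ((τ ((α b₀)⁻¹ • σ1 0 b₀)).1, Λ (σ1 0 b₁) / Λ (σ1 0 b₀)) = Φ 0 :=
      tendsto_nhds_unique (a3.continuousAt.tendsto) hin
    rw [e3]
    exact hΨ_an
  · -- left inverse
    have a1 : Tendsto (fun p : ℂ × ℂ => (σ (m p), (α b₀)⁻¹ * L b₀ p)) (𝓝 0) (𝓝 (σ 0, (1 : ℂ))) := by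
      have b1 : Tendsto (fun p => σ (m p)) (𝓝 0) (𝓝 (σ 0)) := by
        have := hσm.continuousAt.tendsto
        simpa only [hm0] using this
      have b2 : Tendsto (fun p => (α b₀)⁻¹ * L b₀ p) (𝓝 0) (𝓝 1) := by
        have := (hL_an b₀).continuousAt.tendsto.const_mul (α b₀)⁻¹
        rwa [hL0, inv_mul_cancel₀ hb₀] at this
      exact b1.prodMk_nhds b2
    have a2 : ∀ᶠ p in 𝓝 (0 : ℂ × ℂ), Λ (σ (m p)) ≠ 0 := by
      have b1 : Tendsto (fun p => Λ (σ (m p))) (𝓝 0) (𝓝 (Λ (σ 0))) := by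
        have := (Λ.continuous.tendsto _).comp hσm.continuousAt.tendsto
        simpa only [hm0, Function.comp_def] using this
      exact b1.eventually_ne (by rw [h0]; exact hΛ)
    filter_upwards [a1.eventually h.inv, hmt.eventually h.left, hΨl, a2, hL0ev] with p h1 h2 h3 h4 h5
    rw [hτ1, hσ1, hσ1, smul_smul]
    rw [h1, h2, map_smul, map_smul, smul_eq_mul, smul_eq_mul, mul_div_mul_right _ _ h4, hm]
    have e1 : ((p.1, p.1 * p.2).1, L b₁ p / L b₀ p) = Φ p := by rw [hΦ, hR]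
    rw [e1, h3]
  · -- right inverse
    have a1 : Tendsto (fun y : ι → V => (((τ ((α b₀)⁻¹ • y b₀)).1, Λ (y b₁) / Λ (y b₀), (τ ((α b₀)⁻¹ • y b₀)).2) : ℂ × ℂ × ℂ))
        (𝓝 (σ1 0)) (𝓝 w₀) := by
      rw [hw₀]
      exact ((continuous_fst.tendsto _).comp hst).prodMk_nhds (hκ.prodMk_nhds ((continuous_snd.tendsto _).comp hst))
    have a2 : Tendsto τ1 (𝓝 (σ1 0)) (𝓝 0) := by
      have e1 : τ1 = fun y => Ψ ((τ ((α b₀)⁻¹ • y b₀)).1, Λ (y b₁) / Λ (y b₀)) := funext hτ1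
      rw [e1]
      have := hΨ_an.continuousAt.tendsto.comp hin
      rwa [hΨ0] at this
    have a3 : Tendsto (fun y : ι → V => (((τ ((α b₀)⁻¹ • y b₀)).1, Λ (y b₁) / Λ (y b₀),
        (τ ((α b₀)⁻¹ • y b₀)).1 * (τ1 y).2) : ℂ × ℂ × ℂ)) (𝓝 (σ1 0)) (𝓝 w₀) := by
      rw [hw₀]
      refine ((continuous_fst.tendsto _).comp hst).prodMk_nhds (hκ.prodMk_nhds ?_)
      have := ((continuous_fst.tendsto _).comp hst).mul ((continuous_snd.tendsto _).comp a2)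
      simpa using this
    filter_upwards [hx'.eventually h.right, hΛ0, hin.eventually hΨr, a1.eventually hΞl, a3.eventually hΞl, a2.eventually hphi,
      a2.eventually hlσ, a2.eventually hL0ev] with y h1 h2 h3 h4 h5 h6 h7 h8 hy
    obtain ⟨x, hx, hbx, c, hc, rfl⟩ := hy
    have g1 : ∀ b, (c • phi l x) b = (c * l b x) • x := fun b => by
      simp only [phi, Pi.smul_apply, smul_smul]
    rw [g1, map_smul, smul_eq_mul] at h2
    have g2 : c * l b₀ x ≠ 0 := left_ne_zero_of_mul h2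
    have g3 : Λ x ≠ 0 := right_ne_zero_of_mul h2
    have g4 : l b₀ x ≠ 0 := right_ne_zero_of_mul g2
    have g5 : (α b₀)⁻¹ • (c • phi l x) b₀ = ((α b₀)⁻¹ * (c * l b₀ x)) • x := by rw [g1, smul_smul]
    have g6 : (α b₀)⁻¹ * (c * l b₀ x) ≠ 0 := mul_ne_zero (inv_ne_zero hb₀) g2
    obtain ⟨c', hc', hx2⟩ := h1 (by rw [g5]; exact hX.smul x hx _ g6)
    obtain ⟨st, hst'⟩ : ∃ st, st = τ ((α b₀)⁻¹ • (c • phi l x) b₀) := ⟨_, rfl⟩
    obtain ⟨uv, huv⟩ : ∃ uv, uv = τ1 (c • phi l x) := ⟨_, rfl⟩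
    obtain ⟨κ, hκ'⟩ : ∃ κ, κ = Λ ((c • phi l x) b₁) / Λ ((c • phi l x) b₀) := ⟨_, rfl⟩
    rw [hτ1, ← hst', ← hκ'] at huv
    rw [← hst', ← hκ'] at h3 h4 h5
    rw [hτ1, ← hst', ← hκ', ← huv] at h5 h6 h7 h8
    rw [hτ1, ← hst', ← hκ', ← huv]
    rw [← hst'] at hx2
    rw [← huv, hΦ] at h3
    have k1 : uv.1 = st.1 := (Prod.ext_iff.mp h3).1
    have k2 : R uv = κ := (Prod.ext_iff.mp h3).2
    have g7 : κ = l b₁ x / l b₀ x := by
      rw [hκ', g1, g1, map_smul, map_smul, smul_eq_mul, smul_eq_mul, mul_div_mul_right _ _ g3, mul_div_mul_left _ _ hc]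
    -- `x` is a multiple of `σ st`
    obtain ⟨c2, hc2, hx3⟩ : ∃ c2 : ℂ, c2 ≠ 0 ∧ x = c2 • σ st := by
      refine ⟨((α b₀)⁻¹ * (c * l b₀ x))⁻¹ * c', mul_ne_zero (inv_ne_zero g6) hc', ?_⟩
      rw [mul_smul, ← hx2, g5, smul_smul, inv_mul_cancel₀ g6, one_smul]
    have g8 : ∀ b, l b x = c2 * l b (σ st) := fun b => by
      conv_lhs => rw [hx3]
      rw [map_smul, smul_eq_mul]
    have g9 : l b₁ (σ st) - κ * l b₀ (σ st) = 0 := by
      have e1 : l b₀ (σ st) ≠ 0 := by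
        intro e
        rw [g8, e, mul_zero] at g4
        exact g4 rfl
      rw [g7, g8, g8, mul_div_mul_left _ _ hc2, div_mul_cancel₀ _ e1, sub_self]
    have g10 : l b₁ (σ (st.1, st.1 * uv.2)) - κ * l b₀ (σ (st.1, st.1 * uv.2)) = 0 := by
      have e1 : m uv = (st.1, st.1 * uv.2) := by rw [hm, k1]
      rw [← e1, h7 b₁, h7 b₀, ← k2, hR]
      field_simp
      ring
    have k3 : st.2 = st.1 * uv.2 := by
      have e1 : Θ (st.1, κ, st.2) = Θ (st.1, κ, st.1 * uv.2) := by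
        rw [hΘ, hΘ]
        simp only
        rw [g10]
        rw [show ((st.1, st.2) : ℂ × ℂ) = st from rfl, g9]
      rw [e1, h5] at h4
      exact (congrArg (fun w : ℂ × ℂ × ℂ => w.2.2) h4).symm
    have k4 : st = m uv := by
      rw [hm, k1, ← k3]
    refine ⟨c * c2 ^ 2 * uv.1, ?_⟩
    conv_lhs => rw [hx3]
    rw [phi_smul, k4, h6, smul_smul, smul_smul, mul_assoc]
  · -- invariance
    have a1 : Tendsto (fun p : (ι → V) × ℂ => ((α b₀)⁻¹ • p.1 b₀, p.2)) (𝓝 (σ1 0, (1 : ℂ))) (𝓝 (σ 0, (1 : ℂ))) := by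
      rw [nhds_prod_eq]
      exact ((hx'.comp tendsto_fst).prodMk tendsto_snd).mono_right (by rw [nhds_prod_eq])
    have a2 : ∀ᶠ p : (ι → V) × ℂ in 𝓝 (σ1 0, (1 : ℂ)), p.2 ≠ 0 :=
      (continuous_snd.tendsto (σ1 0, (1 : ℂ))).eventually_ne one_ne_zero
    filter_upwards [a1.eventually h.inv, a2] with p h1 h2
    rw [hτ1, hτ1]
    have e1 : (α b₀)⁻¹ • (p.2 • p.1) b₀ = p.2 • (α b₀)⁻¹ • p.1 b₀ := by
      rw [Pi.smul_apply, smul_comm]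
    rw [e1, h1, Pi.smul_apply, Pi.smul_apply, map_smul, map_smul, smul_eq_mul, smul_eq_mul, mul_div_mul_left _ _ h2]
  · filter_upwards [hphi] with p hp
    rw [← hp, hm]
  · rw [hσ10]
    funext b
    rw [hα]

end Pool.Agent.H62.BU
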