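import Mathlib

/-!
# BU: surfaces through their cones (germ level), copy of the definitions of note 2276
-/

set_option autoImplicit false

namespace Pool.Agent.H62.BU

open Filter Topology

variable {V : Type*} [NormedAddCommGroup V] [NormedSpace ℂ V]

/-- `σ` is a local parametrization of the surface with cone `X` near `σ 0`, `τ` the chart (homogeneous of degree `0`) -/
structure IsChart (X : Set V) (σ : ℂ × ℂ → V) (τ : V → ℂ × ℂ) : Prop where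
  σ_an : AnalyticAt ℂ σ 0
  σ_mem : ∀ᶠ p in 𝓝 (0 : ℂ × ℂ), σ p ∈ X
  ne : σ 0 ≠ 0
  τ_an : AnalyticAt ℂ τ (σ 0)
  left : ∀ᶠ p in 𝓝 (0 : ℂ × ℂ), τ (σ p) = p
  right : ∀ᶠ y in 𝓝 (σ 0), y ∈ X → ∃ c : ℂ, c ≠ 0 ∧ y = c • σ (τ y)
  inv : ∀ᶠ p in 𝓝 (σ 0, (1 : ℂ)), τ (p.2 • p.1) = τ p.1

/-- `X` is the cone (without `0`) over a compact complex surface -/
structure Surface (X : Set V) : Prop where
  zero : (0 : V) ∉ X
  smul : ∀ x ∈ X, ∀ c : ℂ, c ≠ 0 → c • x ∈ X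
  closed : ∀ x ∈ closure X, x ≠ 0 → x ∈ X
  chart : ∀ x ∈ X, ∃ σ τ, IsChart X σ τ ∧ σ 0 = x

/-- tangent vectors of `X` at `x` -/
def Tan (X : Set V) (x v : V) : Prop :=
  ∃ γ : ℂ → V, AnalyticAt ℂ γ 0 ∧ (∀ᶠ z in 𝓝 (0 : ℂ), γ z ∈ X) ∧ γ 0 = x ∧ deriv γ 0 = v

/-- sections of `m K (-j)` -/
structure IsForm (X : Set V) (m j : ℕ) (Ω : V → V → V → ℂ) : Prop where
  add_smul : ∀ x ∈ X, ∀ v w, Tan X x v → Tan X x w → ∀ a b : ℂ, Ω x (v + a • x) (w + b • x) = Ω x v w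
  det : ∀ x ∈ X, ∀ v w, Tan X x v → Tan X x w → ∀ a b c d : ℂ,
    Ω x (a • v + b • w) (c • v + d • w) = (a * d - b * c) ^ m * Ω x v w
  scale : ∀ x ∈ X, ∀ v w, Tan X x v → Tan X x w → ∀ c : ℂ, c ≠ 0 → c ^ j * Ω (c • x) (c • v) (c • w) = Ω x v w
  analytic : ∀ (φ : ℂ × ℂ → V) (p : ℂ × ℂ), AnalyticAt ℂ φ p → (∀ᶠ y in 𝓝 p, φ y ∈ X) →
    AnalyticAt ℂ (fun y => Ω (φ y) (fderiv ℂ φ y (1, 0)) (fderiv ℂ φ y (0, 1))) p

end Pool.Agent.H62.BU
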