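import Pool.Agent.H62.BU.Alg

/-!
# BU TanB: tangent vectors of the blow-up

* `tan_comp`: `γ` in the blow-up near `0`, `γ 0 b ≠ 0`: `z ↦ γ z b` is in `X` near `0` (`comp_mem`).
* `tan_rel`: `γ_(b')(z) = λ(z) γ_b(z)` with `λ = Λ(γ_(b'))/Λ(γ_b)`, `Λ (y b) ≠ 0` (`prop`), differentiate.
* `tan_off`: near `y` with `l b' (y b) ≠ 0`: `l_b (γ_b) • γ = phi l (γ_b)` (`eq_phi` times `l_b (γ_b)`); differentiate at `0`: with `x = y b`, `x' = v b`:
  `l_b x' • y + l_b x • v = (l_c x' • x + l_c x • x')_c`.  So if `x' = a • x` then `l_b x • v = (2 a l_c x • x)_c - a l_b x • y`, and `l_c x • x = l_b x • y c`: `v = a • y`.  The general linear form is what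
  `indep_off` uses: a relation `α • x + β • v b + γ • w b = 0` gives `α' • y + β • v + γ • w = 0`.
-/

set_option autoImplicit false

namespace Pool.Agent.H62.BU

open Filter Topology

variable {V : Type*} [NormedAddCommGroup V] [NormedSpace ℂ V] {ι : Type*} [Fintype ι]
variable {l : ι → V →L[ℂ] ℂ} {X : Set V} {σ : ℂ × ℂ → V} {τ : V → ℂ × ℂ}

theorem tan_comp (hX : Surface X) {y v : ι → V} (hy : y ∈ blow l X) (hv : Tan (blow l X) y v) {b : ι} (hb : y b ≠ 0) :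
    Tan X (y b) (v b) := by
  obtain ⟨γ, hγ, hmem, h0, hd⟩ := hv
  have hpr : AnalyticAt ℂ (fun z : ι → V => z b) (γ 0) :=
    (ContinuousLinearMap.proj (R := ℂ) (φ := fun _ : ι => V) b).analyticAt _
  have han : AnalyticAt ℂ (fun z => γ z b) 0 := hpr.comp hγ
  refine ⟨fun z => γ z b, han, ?_, by show γ 0 b = y b; rw [h0], ?_⟩
  · have h1 : ∀ᶠ z in 𝓝 (0 : ℂ), γ z b ≠ 0 := by
      have h2 : Tendsto (fun z => γ z b) (𝓝 0) (𝓝 (γ 0 b)) := han.continuousAt
      rw [h0] at h2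
      exact h2.eventually_ne hb
    filter_upwards [hmem, h1] with z hz1 hz2
    exact comp_mem hX _ hz1 hz2
  · have h1 : HasDerivAt γ v 0 := by
      rw [← hd]; exact hγ.differentiableAt.hasDerivAt
    exact (hasDerivAt_pi.mp h1 b).deriv

theorem tan_rel {y v : ι → V} (hy : y ∈ blow l X) (hv : Tan (blow l X) y v) {b : ι} (hb : y b ≠ 0) (b' : ι) :
    ∃ μ : ℂ, ∀ c : ℂ, y b' = c • y b → v b' = c • v b + μ • y b := by
  obtain ⟨γ, hγ, hmem, h0, hd⟩ := hv
  obtain ⟨Λ, hΛ⟩ := exists_dual_vector ℂ (y b) (norm_ne_zero_iff.mpr hb)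
  have hΛ0 : Λ (y b) ≠ 0 := by
    rw [hΛ.2]
    simpa using hb
  have h1 : HasDerivAt γ v 0 := by
    rw [← hd]; exact hγ.differentiableAt.hasDerivAt
  have hb1 : HasDerivAt (fun z => γ z b) (v b) 0 := hasDerivAt_pi.mp h1 b
  have hb2 : HasDerivAt (fun z => γ z b') (v b') 0 := hasDerivAt_pi.mp h1 b'
  have hL1 : HasDerivAt (fun z => Λ (γ z b)) (Λ (v b)) 0 := Λ.hasFDerivAt.comp_hasDerivAt 0 hb1
  have hL2 : HasDerivAt (fun z => Λ (γ z b')) (Λ (v b')) 0 := Λ.hasFDerivAt.comp_hasDerivAt 0 hb2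
  -- `Λ (γ b) • γ b' = Λ (γ b') • γ b` near `0`
  have e1 : HasDerivAt (fun z => Λ (γ z b) • γ z b') (Λ (γ 0 b) • v b' + Λ (v b) • γ 0 b') 0 := hL1.smul hb2
  have e2 : HasDerivAt (fun z => Λ (γ z b') • γ z b) (Λ (γ 0 b') • v b + Λ (v b') • γ 0 b) 0 := hL2.smul hb1
  have e3 : (fun z => Λ (γ z b) • γ z b') =ᶠ[𝓝 0] fun z => Λ (γ z b') • γ z b := by
    filter_upwards [hmem] with z hz
    exact prop _ hz Λ b b'
  have e4 := e1.unique (e2.congr_of_eventuallyEq e3)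
  rw [h0] at e4
  refine ⟨(Λ (y b))⁻¹ * (Λ (v b') - (Λ (y b))⁻¹ * Λ (v b) * Λ (y b')), fun c hc => ?_⟩
  have e5 : Λ (y b') = c * Λ (y b) := by rw [hc, map_smul, smul_eq_mul]
  rw [e5, hc] at e4
  rw [e5]
  have e7 : Λ (y b) • (v b' - (c • v b + ((Λ (y b))⁻¹ * (Λ (v b') - (Λ (y b))⁻¹ * Λ (v b) * (c * Λ (y b)))) • y b)) = 0 := by
    have e8 : Λ (y b) * ((Λ (y b))⁻¹ * (Λ (v b') - (Λ (y b))⁻¹ * Λ (v b) * (c * Λ (y b)))) = Λ (v b') - Λ (v b) * c := by
      field_simp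
    rw [smul_sub, smul_add, smul_smul (Λ (y b)) _ (y b), e8]
    linear_combination (norm := module) e4
  rcases smul_eq_zero.mp e7 with h4 | h4
  · exact absurd h4 hΛ0
  · exact sub_eq_zero.mp h4

private theorem TanB_aux {y v : ι → V} (hv : Tan (blow l X) y v) {b b' : ι}
    (hb : y b ≠ 0) (hb' : l b' (y b) ≠ 0) (c : ι) :
    l b (y b) • v c = l c (v b) • y b + l c (y b) • v b - l b (v b) • y c := by
  obtain ⟨γ, hγ, hmem, h0, hd⟩ := hv
  have h1 : HasDerivAt γ v 0 := by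
    rw [← hd]; exact hγ.differentiableAt.hasDerivAt
  have hbb : HasDerivAt (fun z => γ z b) (v b) 0 := hasDerivAt_pi.mp h1 b
  have hcc : HasDerivAt (fun z => γ z c) (v c) 0 := hasDerivAt_pi.mp h1 c
  have hL : ∀ c, HasDerivAt (fun z => l c (γ z b)) (l c (v b)) 0 := fun c =>
    (l c).hasFDerivAt.comp_hasDerivAt 0 hbb
  have n1 : ∀ᶠ z in 𝓝 (0 : ℂ), γ z b ≠ 0 := by
    have h2 : Tendsto (fun z => γ z b) (𝓝 0) (𝓝 (γ 0 b)) := hbb.continuousAt
    rw [h0] at h2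
    exact h2.eventually_ne hb
  have n2 : ∀ᶠ z in 𝓝 (0 : ℂ), l b' (γ z b) ≠ 0 := by
    have h2 : Tendsto (fun z => l b' (γ z b)) (𝓝 0) (𝓝 (l b' (γ 0 b))) := (hL b').continuousAt
    rw [h0] at h2
    exact h2.eventually_ne hb'
  have e1 : HasDerivAt (fun z => l b (γ z b) • γ z c) (l b (γ 0 b) • v c + l b (v b) • γ 0 c) 0 := (hL b).smul hcc
  have e2 : HasDerivAt (fun z => l c (γ z b) • γ z b) (l c (γ 0 b) • v b + l c (v b) • γ 0 b) 0 := (hL c).smul hbb
  have e3 : (fun z => l b (γ z b) • γ z c) =ᶠ[𝓝 0] fun z => l c (γ z b) • γ z b := by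
    filter_upwards [hmem, n1, n2] with z hz hz1 hz2
    have h3 := prop (γ z) hz (l b) b c
    rw [symm (γ z) hz b c] at h3
    exact h3
  have e4 := e1.unique (e2.congr_of_eventuallyEq e3)
  rw [h0] at e4
  rw [eq_sub_iff_add_eq, e4]
  exact add_comm _ _

theorem indep_off (hX : Surface X) {y v w : ι → V} (hy : y ∈ blow l X) (hv : Tan (blow l X) y v) (hw : Tan (blow l X) y w) {b b' : ι}
    (hb : y b ≠ 0) (hb' : l b' (y b) ≠ 0) (hi : LinearIndependent ℂ ![y, v, w]) : LinearIndependent ℂ ![y b, v b, w b] := by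
  have hlb : l b (y b) ≠ 0 := ne_of_ne y hy hb hb'
  have hyc : ∀ c, l b (y b) • y c = l c (y b) • y b := by
    intro c
    have h1 := prop y hy (l b) b c
    rw [symm y hy b c] at h1
    exact h1
  rw [Fintype.linearIndependent_iff] at hi ⊢
  intro g hg
  have hi2 := hi g
  simp only [Fin.sum_univ_three, Matrix.cons_val_zero, Matrix.cons_val_one, Matrix.cons_val] at hg hi2
  apply hi2
  have hl0 : ∀ c, g 0 * l c (y b) + g 1 * l c (v b) + g 2 * l c (w b) = 0 := by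
    intro c
    have h1 := congrArg (l c) hg
    simpa only [map_add, map_smul, smul_eq_mul, map_zero] using h1
  funext c
  have ev := TanB_aux hv hb hb' c
  have ew := TanB_aux hw hb hb' c
  have h1 : (g 0 * l c (y b) + g 1 * l c (v b) + g 2 * l c (w b)) • y b = 0 := by rw [hl0, zero_smul]
  have h2 : (g 0 * l b (y b) + g 1 * l b (v b) + g 2 * l b (w b)) • y c = 0 := by rw [hl0, zero_smul]
  have h3 : l b (y b) • (g 0 • y c + g 1 • v c + g 2 • w c) = 0 := by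
    linear_combination (norm := module) (g 1) • ev + (g 2) • ew + (2 * g 0) • (hyc c) + h1 - h2 + (l c (y b)) • hg
  rcases smul_eq_zero.mp h3 with h4 | h4
  · exact absurd h4 hlb
  · exact h4

end Pool.Agent.H62.BU
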